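import Pool.Agent.Helper49.TA.Ea

/-!
PROJECT TA (MP_274814_nt), block F, file Fp: the functions `psi τ μ k x y`.
`Pool.Agent.Helper49.TA.Ea` (Sf_differentiable, Sf_add, Sf_growth, Sf_zero ...) may be used as it is.
-/

namespace Pool.Agent.Helper53.TA

open Complex Pool.Agent.Helper49.TA

noncomputable section

/-- Leibniz rule (`iteratedDeriv_mul` or `iteratedDeriv_fun_mul`); the `j`-th derivative of
`t ↦ exp (-h t y)` at `0` is `(-h y)^j`, the `j`-th derivative of `t ↦ S (x + t)` at `0` is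
`iteratedDeriv j S x` (`iteratedDeriv_comp_const_add`). -/
theorem psi_eq {τ : ℂ} (hτ : 0 < τ.im) (μ : ℂ) (k : ℕ) (x y : ℂ) :
    psi τ μ k x y =
      μ⁻¹ ^ k * iteratedDeriv k (fun t => Sf τ (x + t) * cexp (-(hc τ) * t * y)) 0 := by
  have hS := Sf_differentiable hτ
  have e1 : (fun t => Sf τ (x + t) * cexp (-(hc τ) * t * y)) =
      fun t => cexp ((-(hc τ) * y) * t) * Sf τ (x + t) := by
    funext t
    rw [mul_comm (Sf τ (x + t))]
    congr 2
    ring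
  have d1 : ContDiffAt ℂ (k : ℕ) (fun t : ℂ => cexp ((-(hc τ) * y) * t)) 0 :=
    (contDiff_const.mul contDiff_id).cexp.contDiffAt
  have d2 : ContDiffAt ℂ (k : ℕ) (fun t : ℂ => Sf τ (x + t)) 0 :=
    (hS.contDiff.comp (contDiff_const.add contDiff_id)).contDiffAt
  rw [e1, iteratedDeriv_fun_mul d1 d2]
  unfold psi
  congr 1
  refine Finset.sum_congr rfl fun j _ => ?_
  rw [iteratedDeriv_cexp_const_mul, iteratedDeriv_comp_const_add]
  simp only [mul_zero, Complex.exp_zero, mul_one, add_zero]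
  ring

/-- derivatives of an entire function are entire. -/
theorem iter_diff {f : ℂ → ℂ} (hf : Differentiable ℂ f) (k : ℕ) :
    Differentiable ℂ (iteratedDeriv k f) := by
  have h : ContDiff ℂ ((k + 1 : ℕ) : WithTop ℕ∞) f := hf.contDiff
  exact h.differentiable_iteratedDeriv k (by exact_mod_cast Nat.lt_succ_self k)

theorem psi_diff {E : Type} [NormedAddCommGroup E] [NormedSpace ℂ E] {τ : ℂ} (hτ : 0 < τ.im)
    (μ : ℂ) (k : ℕ) {f g : E → ℂ} (hf : Differentiable ℂ f) (hg : Differentiable ℂ g) :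
    Differentiable ℂ (fun z => psi τ μ k (f z) (g z)) := by
  unfold psi
  refine Differentiable.const_mul ?_ _
  refine Differentiable.fun_sum fun j _ => ?_
  exact (((iter_diff (Sf_differentiable hτ) (k - j)).comp hf).const_mul _).mul
    ((hg.const_mul _).pow j)

/-- From `psi_eq` and `Sf_add`: with `l = m + n τ`,
`S (x + l + t) exp (-h t (y + conj l)) = χ exp (h (conj l x + l conj l / 2)) S (x + t) exp (-h t y)`. -/
theorem psi_add {τ : ℂ} (hτ : 0 < τ.im) (m n : ℤ) : ∃ χ : ℂ, (χ = 1 ∨ χ = -1) ∧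
    ∀ (μ : ℂ) (k : ℕ) (x y : ℂ),
      psi τ μ k (x + (m + n * τ)) (y + (starRingEnd ℂ) (m + n * τ)) =
        χ * cexp (hc τ * ((starRingEnd ℂ) (m + n * τ) * x +
          (m + n * τ) * (starRingEnd ℂ) (m + n * τ) / 2)) * psi τ μ k x y := by
  obtain ⟨χ, hχ, h⟩ := Sf_add hτ m n
  refine ⟨χ, hχ, fun μ k x y => ?_⟩
  rw [psi_eq hτ, psi_eq hτ]
  obtain ⟨l, hl⟩ : ∃ l : ℂ, l = m + n * τ := ⟨_, rfl⟩
  rw [← hl] at h ⊢
  have e1 : (fun t => Sf τ (x + l + t) * cexp (-(hc τ) * t * (y + (starRingEnd ℂ) l))) =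
      fun t => (χ * cexp (hc τ * ((starRingEnd ℂ) l * x + l * (starRingEnd ℂ) l / 2))) *
        (Sf τ (x + t) * cexp (-(hc τ) * t * y)) := by
    funext t
    have e2 : x + l + t = (x + t) + l := by ring
    rw [e2, h]
    have e3 : cexp (hc τ * ((starRingEnd ℂ) l * (x + t) + l * (starRingEnd ℂ) l / 2)) *
        cexp (-(hc τ) * t * (y + (starRingEnd ℂ) l)) =
        cexp (hc τ * ((starRingEnd ℂ) l * x + l * (starRingEnd ℂ) l / 2)) *
        cexp (-(hc τ) * t * y) := by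
      rw [← Complex.exp_add, ← Complex.exp_add]
      congr 1
      ring
    linear_combination χ * Sf τ (x + t) * e3
  rw [e1, iteratedDeriv_const_mul_field]
  ring

/-- Cauchy estimate on `|t| = 1` (`Complex.norm_iteratedDeriv_le_of_forall_mem_sphere_norm_le`) for
`psi_eq`, and `Sf_growth`: `‖psi‖ ≤ ‖μ⁻¹‖^k k! C exp (h (‖x‖ + 1)^2 / 2 + h ‖y‖)`. -/
theorem psi_bound {τ : ℂ} (hτ : 0 < τ.im) (μ : ℂ) : ∃ C : ℝ, 1 ≤ C ∧ ∀ (k : ℕ) (x y : ℂ),
    ‖psi τ μ k x y‖ ≤ C ^ (k + 1) * k.factorial * Real.exp (C * (1 + ‖x‖ ^ 2 + ‖y‖ ^ 2)) := by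
  obtain ⟨C0, hC0, hg⟩ := Sf_growth hτ
  have hh : 0 < hc τ := div_pos Real.pi_pos hτ
  obtain ⟨h, hhd⟩ : ∃ h : ℝ, h = hc τ := ⟨_, rfl⟩
  rw [← hhd] at hg hh
  have hμ := norm_nonneg μ⁻¹
  refine ⟨C0 + ‖μ⁻¹‖ + 2 * h, by linarith, fun k x y => ?_⟩
  obtain ⟨C, hC⟩ : ∃ C : ℝ, C = C0 + ‖μ⁻¹‖ + 2 * h := ⟨_, rfl⟩
  rw [← hC]
  have hC1 : 1 ≤ C := by linarith
  have hx := norm_nonneg x
  have hy := norm_nonneg y
  -- the bound on the circle
  have hb : ∀ t ∈ Metric.sphere (0 : ℂ) 1, ‖Sf τ (x + t) * cexp (-(hc τ) * t * y)‖ ≤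
      C0 * Real.exp (2 * h * (1 + ‖x‖ ^ 2 + ‖y‖ ^ 2)) := by
    intro t ht
    rw [mem_sphere_zero_iff_norm] at ht
    have b1 : ‖x + t‖ ≤ ‖x‖ + 1 := by
      rw [← ht]
      exact norm_add_le x t
    have b2 : ‖cexp (-(hc τ) * t * y)‖ ≤ Real.exp (h * ‖y‖) := by
      rw [Complex.norm_exp]
      refine Real.exp_le_exp.2 ?_
      refine (Complex.re_le_norm _).trans ?_
      rw [norm_mul, norm_mul, ht, norm_neg, Complex.norm_real, Real.norm_of_nonneg (by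
        rw [← hhd]; exact hh.le), ← hhd, mul_one]
    have b3 : ‖Sf τ (x + t)‖ ≤ C0 * Real.exp (h * (1 + ‖x‖ ^ 2)) := by
      refine (hg (x + t)).trans ?_
      refine mul_le_mul_of_nonneg_left (Real.exp_le_exp.2 ?_) (by linarith)
      have b4 : ‖x + t‖ ^ 2 ≤ (‖x‖ + 1) ^ 2 := pow_le_pow_left₀ (norm_nonneg _) b1 2
      nlinarith [sq_nonneg (‖x‖ - 1)]
    rw [norm_mul]
    have b5 : ‖Sf τ (x + t)‖ * ‖cexp (-(hc τ) * t * y)‖ ≤
        (C0 * Real.exp (h * (1 + ‖x‖ ^ 2))) * Real.exp (h * ‖y‖) :=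
      mul_le_mul b3 b2 (norm_nonneg _) (by positivity)
    refine b5.trans ?_
    rw [mul_assoc, ← Real.exp_add]
    refine mul_le_mul_of_nonneg_left (Real.exp_le_exp.2 ?_) (by linarith)
    have b6 : ‖y‖ ≤ 1 + ‖y‖ ^ 2 := by nlinarith [sq_nonneg (‖y‖ - 1)]
    have b7 : 0 ≤ ‖x‖ ^ 2 := sq_nonneg _
    nlinarith [mul_le_mul_of_nonneg_left b6 hh.le, mul_nonneg hh.le b7,
      mul_nonneg hh.le (sq_nonneg ‖y‖)]
  have hd : DiffContOnCl ℂ (fun t => Sf τ (x + t) * cexp (-(hc τ) * t * y)) (Metric.ball 0 1) := by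
    refine Differentiable.diffContOnCl ?_
    refine ((Sf_differentiable hτ).comp ((differentiable_const x).add differentiable_id)).mul ?_
    exact (((differentiable_const _).mul differentiable_id).mul_const y).cexp
  have hc1 := norm_iteratedDeriv_le_of_forall_mem_sphere_norm_le k one_pos hd hb
  rw [one_pow, div_one] at hc1
  rw [psi_eq hτ, norm_mul, norm_pow]
  obtain ⟨E, hE⟩ : ∃ E : ℝ, E = 1 + ‖x‖ ^ 2 + ‖y‖ ^ 2 := ⟨_, rfl⟩
  rw [← hE] at hc1 ⊢
  have hE0 : 0 ≤ E := by rw [hE]; positivity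
  have f1 : ‖μ⁻¹‖ ^ k ≤ C ^ k := pow_le_pow_left₀ hμ (by linarith) k
  have f2 : (k.factorial : ℝ) * (C0 * Real.exp (2 * h * E)) ≤ k.factorial * (C * Real.exp (C * E)) := by
    refine mul_le_mul_of_nonneg_left ?_ (Nat.cast_nonneg _)
    refine mul_le_mul (by linarith) (Real.exp_le_exp.2 ?_) (Real.exp_pos _).le (by linarith)
    exact mul_le_mul_of_nonneg_right (by linarith) hE0
  calc ‖μ⁻¹‖ ^ k * ‖iteratedDeriv k (fun t => Sf τ (x + t) * cexp (-(hc τ) * t * y)) 0‖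
      ≤ C ^ k * (k.factorial * (C * Real.exp (C * E))) :=
        mul_le_mul f1 (hc1.trans f2) (norm_nonneg _) (by positivity)
    _ = C ^ (k + 1) * k.factorial * Real.exp (C * E) := by ring

end

end Pool.Agent.Helper53.TA
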