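import Pool.Agent.Helper49.TA.Ea

/-!
PROJECT TA (MP_274814_nt), block F, file Fl: the linear forms `Lf`, `Ls` and the lattice.
-/

namespace Pool.Agent.Helper53.TA

open Complex Pool.Agent.Helper49.TA

noncomputable section

private theorem fl_conj : (starRingEnd ℂ) rho = -1 - rho := by
  apply Complex.ext
  · simp only [rho, conj_re, add_re, sub_re, neg_re, one_re, mul_re, ofReal_re, ofReal_im, I_re,
      I_im, div_ofNat_re]
    norm_num
  · simp only [rho, conj_im, add_im, sub_im, neg_im, one_im, mul_im, ofReal_re, ofReal_im, I_re,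
      I_im, div_ofNat_im]
    norm_num

private theorem fl_sqrt : ((Real.sqrt 3 : ℝ) : ℂ) = -I * (2 * rho + 1) := by
  have h : I * I = -1 := I_mul_I
  simp only [rho]
  push_cast
  linear_combination ((Real.sqrt 3 : ℝ) : ℂ) * h

private theorem fl_sq : rho ^ 2 = -1 - rho := by
  have h : I * I = -1 := I_mul_I
  have h3 : ((Real.sqrt 3 : ℝ) : ℂ) ^ 2 = 3 := by
    rw [← ofReal_pow, Real.sq_sqrt (by norm_num)]
    norm_num
  simp only [rho]
  push_cast
  linear_combination (((Real.sqrt 3 : ℝ) : ℂ) ^ 2 / 4) * h - (1 / 4 : ℂ) * h3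

private theorem fl_diff : rho - (starRingEnd ℂ) rho = (Real.sqrt 3 : ℝ) * I := by
  rw [fl_conj, fl_sqrt]
  have h : I * I = -1 := I_mul_I
  linear_combination (2 * rho + 1) * h

theorem rho_ne : rho - (starRingEnd ℂ) rho ≠ 0 := by
  rw [fl_diff]
  apply mul_ne_zero _ I_ne_zero
  rw [ofReal_ne_zero]
  positivity

theorem Lf_add (i : Fin 4) (z w : Fin 4 → ℂ) : Lf i (z + w) = Lf i z + Lf i w := by
  fin_cases i <;> simp [Lf] <;> ring

theorem Ls_add (i : Fin 4) (z w : Fin 4 → ℂ) : Ls i (z + w) = Ls i z + Ls i w := by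
  fin_cases i <;> simp [Ls] <;> ring

theorem Lf_smul (i : Fin 4) (c : ℂ) (z : Fin 4 → ℂ) : Lf i (c • z) = c * Lf i z := by
  fin_cases i <;> simp [Lf] <;> ring

theorem Ls_smul (i : Fin 4) (c : ℂ) (z : Fin 4 → ℂ) : Ls i (c • z) = c * Ls i z := by
  fin_cases i <;> simp [Ls] <;> ring

private def LfL (i : Fin 4) : (Fin 4 → ℂ) →ₗ[ℂ] ℂ where
  toFun := Lf i
  map_add' := Lf_add i
  map_smul' := Lf_smul i

private def LsL (i : Fin 4) : (Fin 4 → ℂ) →ₗ[ℂ] ℂ where
  toFun := Ls i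
  map_add' := Ls_add i
  map_smul' := Ls_smul i

theorem Lf_diff (i : Fin 4) : Differentiable ℂ (Lf i) :=
  (LinearMap.toContinuousLinearMap (LfL i)).differentiable

theorem Ls_diff (i : Fin 4) : Differentiable ℂ (Ls i) :=
  (LinearMap.toContinuousLinearMap (LsL i)).differentiable

/-- on the real points the starred form is the conjugate. -/
theorem Ls_real (i : Fin 4) (z : Fin 4 → ℂ) (hz : IsR z) :
    Ls i z = (starRingEnd ℂ) (Lf i z) := by
  obtain ⟨h2, h3⟩ := hz
  have e2 : (starRingEnd ℂ) (2 : ℂ) = 2 := Complex.conj_ofNat 2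
  fin_cases i
  · simp [Ls, Lf, h2, h3]
  · simp [Ls, Lf, h2, h3]
  · simp [Ls, Lf, h2, h3, e2]
  · simp [Ls, Lf, h2, h3, e2]
    ring

theorem lat_real (κ : Fin 4 → ℤ) : IsR (lat κ) := by
  constructor <;> simp [lat]

theorem lat_add (κ ν : Fin 4 → ℤ) : lat (κ + ν) = lat κ + lat ν := by
  funext i
  fin_cases i <;> simp [lat] <;> ring

theorem real_add {z w : Fin 4 → ℂ} (hz : IsR z) (hw : IsR w) : IsR (z + w) := by
  obtain ⟨h1, h2⟩ := hz
  obtain ⟨h3, h4⟩ := hw
  constructor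
  · simp [h1, h3]
  · simp [h2, h4]

/-- `x = κ0 + κ1 i`, `y = κ2 + κ3 i`, `X = κ0 + κ2 ρ`, `Y = κ1 + κ3 ρ`. -/
theorem Lf_lat (κ : Fin 4 → ℤ) (i : Fin 4) :
    Lf i (lat κ) = ((![κ 0, κ 2, κ 0, κ 1] : Fin 4 → ℤ) i : ℂ) +
      ((![κ 1, κ 3, κ 2, κ 3] : Fin 4 → ℤ) i : ℂ) * ta i := by
  have hne := rho_ne
  have hI : I ≠ 0 := I_ne_zero
  fin_cases i
  · simp [Lf, lat, ta]
    field_simp
    ring
  · simp [Lf, lat, ta]
    field_simp
  · simp [Lf, lat, ta]
    ring
  · simp [Lf, lat, ta]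
    field_simp
    ring

theorem ta_im (i : Fin 4) : 0 < (ta i).im := by
  have hr : 0 < rho.im := by
    simp only [rho, add_im, mul_im, ofReal_re, ofReal_im, I_re, I_im]
    norm_num
  fin_cases i
  · simp [ta]
  · simp [ta]
  · simpa [ta] using hr
  · simpa [ta] using hr

theorem Lf_bound : ∃ C : ℝ, 1 ≤ C ∧ ∀ (i : Fin 4) (z : Fin 4 → ℂ),
    ‖Lf i z‖ ≤ C * ‖z‖ ∧ ‖Ls i z‖ ≤ C * ‖z‖ := by
  refine ⟨1 + ∑ i, (‖LinearMap.toContinuousLinearMap (LfL i)‖ +
    ‖LinearMap.toContinuousLinearMap (LsL i)‖), ?_, ?_⟩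
  · have : 0 ≤ ∑ i, (‖LinearMap.toContinuousLinearMap (LfL i)‖ +
      ‖LinearMap.toContinuousLinearMap (LsL i)‖) :=
      Finset.sum_nonneg (fun i _ => by positivity)
    linarith
  · intro i z
    have h1 : ‖LinearMap.toContinuousLinearMap (LfL i)‖ +
      ‖LinearMap.toContinuousLinearMap (LsL i)‖ ≤
      ∑ i, (‖LinearMap.toContinuousLinearMap (LfL i)‖ +
        ‖LinearMap.toContinuousLinearMap (LsL i)‖) :=
      Finset.single_le_sum (f := fun i => ‖LinearMap.toContinuousLinearMap (LfL i)‖ +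
        ‖LinearMap.toContinuousLinearMap (LsL i)‖) (fun i _ => by positivity)
        (Finset.mem_univ i)
    have h2 := (LinearMap.toContinuousLinearMap (LfL i)).le_opNorm z
    have h3 := (LinearMap.toContinuousLinearMap (LsL i)).le_opNorm z
    have h4 : (LinearMap.toContinuousLinearMap (LfL i)) z = Lf i z := rfl
    have h5 : (LinearMap.toContinuousLinearMap (LsL i)) z = Ls i z := rfl
    rw [h4] at h2
    rw [h5] at h3
    have h6 := norm_nonneg (LinearMap.toContinuousLinearMap (LfL i))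
    have h7 := norm_nonneg (LinearMap.toContinuousLinearMap (LsL i))
    constructor
    · exact h2.trans (mul_le_mul_of_nonneg_right (by linarith) (norm_nonneg z))
    · exact h3.trans (mul_le_mul_of_nonneg_right (by linarith) (norm_nonneg z))

private theorem fl_norm_rho : ‖rho‖ ≤ 1 := by
  have h : ‖rho‖ ^ 2 = 1 := by
    rw [Complex.sq_norm, Complex.normSq_apply]
    have h3 : Real.sqrt 3 * Real.sqrt 3 = 3 := Real.mul_self_sqrt (by norm_num)
    simp only [rho, add_im, mul_im, ofReal_re, ofReal_im, I_re, I_im, add_re, mul_re]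
    norm_num
    nlinarith
  nlinarith [norm_nonneg rho]

private theorem fl_round (z : ℂ) : ‖z - (round z.re + round z.im * I)‖ ≤ 1 := by
  have h1 := abs_sub_round z.re
  have h2 := abs_sub_round z.im
  have h3 := Complex.norm_le_abs_re_add_abs_im (z - (round z.re + round z.im * I))
  have h4 : (z - (round z.re + round z.im * I)).re = z.re - round z.re := by simp
  have h5 : (z - (round z.re + round z.im * I)).im = z.im - round z.im := by simp
  rw [h4, h5] at h3
  linarith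

/-- every real point is a lattice point plus a real point of norm at most `4`
(round the real coordinates of `x = Lf 0 z`, `y = Lf 1 z`). -/
theorem cover (s : Fin 4 → ℂ) (hs : IsR s) : ∃ (κ : Fin 4 → ℤ) (s' : Fin 4 → ℂ),
    IsR s' ∧ ‖s'‖ ≤ 4 ∧ s = s' + lat κ := by
  have hne := rho_ne
  set x := Lf 0 s with hx
  set y := Lf 1 s with hy
  have e0 : s 0 = x + y * rho := by
    rw [hx, hy]
    simp only [Lf, Matrix.cons_val_zero, Matrix.cons_val_one]
    field_simp
    ring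
  have e1 : s 1 = x + y * (starRingEnd ℂ) rho := by
    rw [hx, hy]
    simp only [Lf, Matrix.cons_val_zero, Matrix.cons_val_one]
    field_simp
    ring
  set κ : Fin 4 → ℤ := ![round x.re, round x.im, round y.re, round y.im] with hκ
  have hl := lat_real κ
  have n0 : ‖s 0 - lat κ 0‖ ≤ 2 := by
    have : s 0 - lat κ 0 = (x - (round x.re + round x.im * I)) +
        (y - (round y.re + round y.im * I)) * rho := by
      rw [e0, hκ]
      simp [lat]
      ring
    rw [this]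
    refine (norm_add_le _ _).trans ?_
    rw [norm_mul]
    have h1 := fl_round x
    have h2 := fl_round y
    have h3 := fl_norm_rho
    have h4 := mul_le_mul h2 h3 (norm_nonneg rho) (by norm_num)
    linarith
  have n1 : ‖s 1 - lat κ 1‖ ≤ 2 := by
    have : s 1 - lat κ 1 = (x - (round x.re + round x.im * I)) +
        (y - (round y.re + round y.im * I)) * (starRingEnd ℂ) rho := by
      rw [e1, hκ]
      simp [lat]
      ring
    rw [this]
    refine (norm_add_le _ _).trans ?_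
    rw [norm_mul]
    have h1 := fl_round x
    have h2 := fl_round y
    have h3 : ‖(starRingEnd ℂ) rho‖ ≤ 1 := by
      rw [Complex.norm_conj]
      exact fl_norm_rho
    have h4 := mul_le_mul h2 h3 (norm_nonneg _) (by norm_num)
    linarith
  have hR : IsR (s - lat κ) := by
    constructor
    · rw [Pi.sub_apply, Pi.sub_apply, hs.1, hl.1, map_sub]
    · rw [Pi.sub_apply, Pi.sub_apply, hs.2, hl.2, map_sub]
  refine ⟨κ, s - lat κ, hR, ?_, by simp⟩
  rw [pi_norm_le_iff_of_nonneg (by norm_num)]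
  intro i
  fin_cases i
  · show ‖(s - lat κ) 0‖ ≤ 4
    rw [Pi.sub_apply]
    linarith
  · show ‖(s - lat κ) 1‖ ≤ 4
    rw [Pi.sub_apply]
    linarith
  · show ‖(s - lat κ) 2‖ ≤ 4
    rw [hR.1, Complex.norm_conj, Pi.sub_apply]
    linarith
  · show ‖(s - lat κ) 3‖ ≤ 4
    rw [hR.2, Complex.norm_conj, Pi.sub_apply]
    linarith

/-- the unit `2 - √3`: `s0` is multiplied by `2 - √3`, `s1` by `2 + √3`. -/
theorem unit_inv (κ : Fin 4 → ℤ) : ∃ ν : Fin 4 → ℤ,
    lat ν 0 = (2 - (Real.sqrt 3 : ℝ)) * lat κ 0 ∧ lat ν 1 = (2 + (Real.sqrt 3 : ℝ)) * lat κ 1 := by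
  have hI : I * I = -1 := I_mul_I
  have h2 := fl_sq
  refine ⟨![2 * κ 0 - κ 1 + 2 * κ 3, κ 0 + 2 * κ 1 - 2 * κ 2, -2 * κ 1 + 2 * κ 2 + κ 3,
    2 * κ 0 - κ 2 + 2 * κ 3], ?_, ?_⟩
  · rw [fl_sqrt]
    simp [lat]
    linear_combination (-(κ 1 * (2 * rho + 1) + κ 3 * (2 * rho ^ 2 + rho)) : ℂ) * hI +
      (-2 * (κ 2 * I - κ 3) : ℂ) * h2
  · rw [fl_sqrt]
    simp [lat, fl_conj]
    linear_combination (-(κ 1 * (2 * (-1 - rho) + 1) +
      κ 3 * (2 * (-1 - rho) ^ 2 + (-1 - rho))) : ℂ) * hI + (-2 * (κ 2 * I - κ 3) : ℂ) * h2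

end

end Pool.Agent.Helper53.TA
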