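import Pool.Agent.Helper53.TA.Fp
import Pool.Agent.Helper53.TA.Fl

/-!
PROJECT TA (MP_274814_nt), block F, file Fq: `F_diff`, `F_qp`, `F_per`, `F_growth`, `F_poly` of `Tg.lean`.
The lemmas of `Fp.lean`, `Fl.lean` may be used even if they are not proved yet.
-/

namespace Pool.Agent.Helper53.TA

open Complex Pool.Agent.Helper49.TA

noncomputable section

section F

variable (μ₁ μ₂ : ℂ) (L : ℕ) (p : (Fin 4 → Fin (L + 1)) → ℂ)

/-- `psi_diff`, `Lf_diff`, `Ls_diff`. -/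
theorem F_diff : Differentiable ℂ (Ff μ₁ μ₂ L p) := by
  unfold Ff
  refine Differentiable.fun_sum fun k _ => Differentiable.const_mul ?_ _
  have h : ∀ i : Fin 4, Differentiable ℂ
      (fun z : Fin 4 → ℂ => psi (ta i) (mf μ₁ μ₂ i) (k i) (Lf i z) (Ls i z)) :=
    fun i => psi_diff (ta_im i) _ _ (Lf_diff i) (Ls_diff i)
  simp only [Fin.prod_univ_four]
  exact (((h 0).mul (h 1)).mul (h 2)).mul (h 3)

/-- quasi-periodicity; the factor does not depend on `p` (nor on `L`). `psi_add` for each `i` with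
`Lf_lat`, `Ls i (lat κ) = conj (Lf i (lat κ))`. -/
theorem F_qp (κ : Fin 4 → ℤ) : ∃ χ : ℂ, (χ = 1 ∨ χ = -1) ∧ ∀ (L : ℕ)
    (p : (Fin 4 → Fin (L + 1)) → ℂ) (z : Fin 4 → ℂ), Ff μ₁ μ₂ L p (z + lat κ) =
      χ * cexp (∑ i, (hc (ta i) : ℂ) * ((starRingEnd ℂ) (Lf i (lat κ)) * Lf i z +
        Lf i (lat κ) * (starRingEnd ℂ) (Lf i (lat κ)) / 2)) * Ff μ₁ μ₂ L p z := by
  have hex : ∀ i : Fin 4, ∃ χ : ℂ, (χ = 1 ∨ χ = -1) ∧ ∀ (μ : ℂ) (k : ℕ) (z : Fin 4 → ℂ),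
      psi (ta i) μ k (Lf i (z + lat κ)) (Ls i (z + lat κ)) =
        χ * cexp ((hc (ta i) : ℂ) * ((starRingEnd ℂ) (Lf i (lat κ)) * Lf i z +
          Lf i (lat κ) * (starRingEnd ℂ) (Lf i (lat κ)) / 2)) *
          psi (ta i) μ k (Lf i z) (Ls i z) := by
    intro i
    obtain ⟨χ, hχ, h⟩ := psi_add (ta_im i) ((![κ 0, κ 2, κ 0, κ 1] : Fin 4 → ℤ) i)
      ((![κ 1, κ 3, κ 2, κ 3] : Fin 4 → ℤ) i)
    refine ⟨χ, hχ, fun μ k z => ?_⟩
    rw [Lf_add, Ls_add, Ls_real i (lat κ) (lat_real κ), Lf_lat]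
    exact h μ k (Lf i z) (Ls i z)
  choose χ hχ h using hex
  refine ⟨∏ i, χ i, ?_, fun L p z => ?_⟩
  · refine Finset.prod_induction χ (fun x => x = 1 ∨ x = -1) ?_ (Or.inl rfl) fun i _ => hχ i
    rintro a b (rfl | rfl) (rfl | rfl) <;> norm_num
  · unfold Ff
    rw [Finset.mul_sum]
    refine Finset.sum_congr rfl fun k _ => ?_
    rw [Finset.prod_congr rfl fun i _ => h i (mf μ₁ μ₂ i) (k i) z, Finset.prod_mul_distrib,
      Finset.prod_mul_distrib, Complex.exp_sum]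
    ring

/-- for all `z`: with `l_i = Lf i (lat κ)`,
`‖Ft (z + lat κ)‖ = exp (Re ∑ h_i (conj l_i Lf i z - l_i Ls i z) / 2) ‖Ft z‖`. -/
theorem Ft_shift (κ : Fin 4 → ℤ) (z : Fin 4 → ℂ) :
    ‖Ft μ₁ μ₂ L p (z + lat κ)‖ = Real.exp ((∑ i, (hc (ta i) : ℂ) *
      ((starRingEnd ℂ) (Lf i (lat κ)) * Lf i z - Lf i (lat κ) * Ls i z) / 2).re) *
      ‖Ft μ₁ μ₂ L p z‖ := by
  obtain ⟨χ, hχ, h⟩ := F_qp μ₁ μ₂ κ
  have hn : ‖χ‖ = 1 := by
    rcases hχ with rfl | rfl <;> simp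
  have hQ : Qf (z + lat κ) = Qf z + ∑ i, (hc (ta i) : ℂ) * (Lf i (lat κ) * Ls i z +
      (starRingEnd ℂ) (Lf i (lat κ)) * Lf i z +
      Lf i (lat κ) * (starRingEnd ℂ) (Lf i (lat κ))) := by
    unfold Qf
    rw [← Finset.sum_add_distrib]
    refine Finset.sum_congr rfl fun i _ => ?_
    rw [Lf_add, Ls_add, Ls_real i (lat κ) (lat_real κ)]
    ring
  have key : Ft μ₁ μ₂ L p (z + lat κ) = χ * cexp (∑ i, (hc (ta i) : ℂ) *
      ((starRingEnd ℂ) (Lf i (lat κ)) * Lf i z - Lf i (lat κ) * Ls i z) / 2) *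
      Ft μ₁ μ₂ L p z := by
    unfold Ft
    rw [h L p z, hQ]
    have e : cexp (∑ i, (hc (ta i) : ℂ) * ((starRingEnd ℂ) (Lf i (lat κ)) * Lf i z +
        Lf i (lat κ) * (starRingEnd ℂ) (Lf i (lat κ)) / 2)) *
        cexp (-(Qf z + ∑ i, (hc (ta i) : ℂ) * (Lf i (lat κ) * Ls i z +
      (starRingEnd ℂ) (Lf i (lat κ)) * Lf i z +
      Lf i (lat κ) * (starRingEnd ℂ) (Lf i (lat κ)))) / 2) =
        cexp (∑ i, (hc (ta i) : ℂ) *
      ((starRingEnd ℂ) (Lf i (lat κ)) * Lf i z - Lf i (lat κ) * Ls i z) / 2) *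
        cexp (-(Qf z) / 2) := by
      rw [← Complex.exp_add, ← Complex.exp_add]
      congr 1
      rw [neg_add, add_div, neg_div _ (∑ i, _), Finset.sum_div, add_left_comm, add_comm,
        ← sub_eq_add_neg, ← Finset.sum_sub_distrib]
      congr 1
      refine Finset.sum_congr rfl fun i _ => ?_
      ring
    linear_combination χ * Ff μ₁ μ₂ L p z * e
  rw [key, norm_mul, norm_mul, hn, one_mul, Complex.norm_exp]

/-- `Ft_shift`: on a real point `conj l Lf z - l conj (Lf z)` is purely imaginary. -/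
theorem F_per (κ : Fin 4 → ℤ) (z : Fin 4 → ℂ) (hz : IsR z) :
    ‖Ft μ₁ μ₂ L p (z + lat κ)‖ = ‖Ft μ₁ μ₂ L p z‖ := by
  rw [Ft_shift]
  have e : (∑ i, (hc (ta i) : ℂ) * ((starRingEnd ℂ) (Lf i (lat κ)) * Lf i z -
      Lf i (lat κ) * Ls i z) / 2).re = 0 := by
    rw [Complex.re_sum]
    refine Finset.sum_eq_zero fun i _ => ?_
    rw [Ls_real i z hz]
    have h1 : Lf i (lat κ) * (starRingEnd ℂ) (Lf i z) =
        (starRingEnd ℂ) ((starRingEnd ℂ) (Lf i (lat κ)) * Lf i z) := by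
      rw [map_mul, Complex.conj_conj]
    rw [h1, mul_div_assoc, Complex.re_ofReal_mul, Complex.sub_conj]
    have h2 : ((2 * (((starRingEnd ℂ) (Lf i (lat κ)) * Lf i z).im : ℂ)) * I / 2).re = 0 := by
      simp
    push_cast at h2 ⊢
    rw [h2, mul_zero]
  rw [e, Real.exp_zero, one_mul]

end F

end

end Pool.Agent.Helper53.TA
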