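import Pool.Agent.Helper53.TA.Fq

/-!
PROJECT TA (MP_274814_nt), block F, file Fg: `F_growth` of `Tg.lean`.
The lemmas of `Fp.lean`, `Fl.lean`, `Fq.lean` may be used even if they are not proved yet.
-/

namespace Pool.Agent.Helper53.TA

open Complex Pool.Agent.Helper49.TA

noncomputable section

private theorem fg_aux (h : ℝ) (l a b : ℂ) :
    ((h : ℂ) * ((starRingEnd ℂ) l * (a + I * b) -
      l * ((starRingEnd ℂ) a + I * (starRingEnd ℂ) b)) / 2).re =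
      h * (l * (starRingEnd ℂ) b).im := by
  have h2 : ((h : ℂ) * ((starRingEnd ℂ) l * (a + I * b) -
      l * ((starRingEnd ℂ) a + I * (starRingEnd ℂ) b)) / 2) =
      ((h / 2 : ℝ) : ℂ) * ((starRingEnd ℂ) l * (a + I * b) -
        l * ((starRingEnd ℂ) a + I * (starRingEnd ℂ) b)) := by
    push_cast
    ring
  rw [h2, Complex.re_ofReal_mul]
  simp only [Complex.sub_re, Complex.mul_re, Complex.add_re, Complex.add_im, Complex.mul_im,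
    Complex.conj_re, Complex.conj_im, Complex.I_re, Complex.I_im]
  ring

/-- `‖Ft (s + i v)‖ exp (- Xf s v)` is invariant under `s → s + lat κ`: `Ft_shift` with `z = s + i v`:
`Ls i (s + i v) = conj (Lf i s) + i conj (Lf i v)`, the exponent is
`- ∑ h_i Im (conj l_i Lf i v) = ∑ h_i Im (l_i conj (Lf i v)) = Xf (lat κ) v`. -/
theorem Ft_shift_real (μ₁ μ₂ : ℂ) (L : ℕ) (p : (Fin 4 → Fin (L + 1)) → ℂ) (κ : Fin 4 → ℤ)
    (s v : Fin 4 → ℂ) (hs : IsR s) (hv : IsR v) :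
    ‖Ft μ₁ μ₂ L p (s + lat κ + I • v)‖ =
      Real.exp (Xf (lat κ) v) * ‖Ft μ₁ μ₂ L p (s + I • v)‖ := by
  have h1 : s + lat κ + I • v = s + I • v + lat κ := by abel
  rw [h1, Ft_shift]
  congr 2
  rw [Complex.re_sum]
  unfold Xf
  refine Finset.sum_congr rfl fun i _ => ?_
  rw [Lf_add, Lf_smul, Ls_add, Ls_smul, Ls_real i s hs, Ls_real i v hv]
  exact fg_aux _ _ _ _

private theorem fg_psi (μ₁ μ₂ : ℂ) : ∃ A : ℝ, 1 ≤ A ∧ ∀ (i : Fin 4) (k : ℕ) (x y : ℂ),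
    ‖psi (ta i) (mf μ₁ μ₂ i) k x y‖ ≤
      A ^ (k + 1) * k.factorial * Real.exp (A * (1 + ‖x‖ ^ 2 + ‖y‖ ^ 2)) := by
  choose C hC1 hC using fun i : Fin 4 => psi_bound (ta_im i) (mf μ₁ μ₂ i)
  have hle : ∀ i, C i ≤ ∑ j, C j := fun i =>
    Finset.single_le_sum (f := C) (fun j _ => zero_le_one.trans (hC1 j)) (Finset.mem_univ i)
  refine ⟨∑ i, C i, (hC1 0).trans (hle 0), fun i k x y => (hC i k x y).trans ?_⟩
  have h0 : 0 ≤ C i := zero_le_one.trans (hC1 i)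
  have h1 : 0 ≤ 1 + ‖x‖ ^ 2 + ‖y‖ ^ 2 := by positivity
  have h2 : 0 ≤ ∑ j, C j := h0.trans (hle i)
  refine mul_le_mul (mul_le_mul_of_nonneg_right (pow_le_pow_left₀ h0 (hle i) _) (by positivity))
    (Real.exp_le_exp.2 (mul_le_mul_of_nonneg_right (hle i) h1)) (by positivity) (by positivity)

private theorem fg_psi_exp {A B : ℝ} (hA : 1 ≤ A) {L k : ℕ} (hk : k ≤ L) {x y : ℂ} {r : ℝ}
    (hx : ‖x‖ ≤ B * r) (hy : ‖y‖ ≤ B * r) :
    A ^ (k + 1) * k.factorial * Real.exp (A * (1 + ‖x‖ ^ 2 + ‖y‖ ^ 2)) ≤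
      Real.exp ((L + 1) * Real.log A + L * Real.log (L + 2) + A * (1 + 2 * B ^ 2 * r ^ 2)) := by
  have hA0 : 0 < A := by linarith
  have h1 : A ^ (k + 1) ≤ Real.exp ((L + 1) * Real.log A) := by
    have e : Real.exp ((L + 1) * Real.log A) = A ^ (L + 1) := by
      have := Real.exp_nat_mul (Real.log A) (L + 1)
      rw [Real.exp_log hA0] at this
      rw [← this]
      push_cast
      rfl
    rw [e]
    exact pow_le_pow_right₀ hA (by omega)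
  have h2 : (k.factorial : ℝ) ≤ Real.exp (L * Real.log (L + 2)) := by
    have hL2 : (0 : ℝ) < (L : ℝ) + 2 := by positivity
    have e : Real.exp (L * Real.log (L + 2)) = ((L : ℝ) + 2) ^ L := by
      rw [Real.exp_nat_mul, Real.exp_log hL2]
    rw [e]
    have h3 : k.factorial ≤ (L + 2) ^ L := by
      calc k.factorial ≤ k ^ k := Nat.factorial_le_pow k
        _ ≤ (L + 2) ^ k := Nat.pow_le_pow_left (by omega) k
        _ ≤ (L + 2) ^ L := Nat.pow_le_pow_right (by omega) hk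
    exact_mod_cast h3
  have h3 : ‖x‖ ^ 2 ≤ (B * r) ^ 2 := pow_le_pow_left₀ (norm_nonneg _) hx 2
  have h4 : ‖y‖ ^ 2 ≤ (B * r) ^ 2 := pow_le_pow_left₀ (norm_nonneg _) hy 2
  have h5 : Real.exp (A * (1 + ‖x‖ ^ 2 + ‖y‖ ^ 2)) ≤
      Real.exp (A * (1 + 2 * B ^ 2 * r ^ 2)) := by
    apply Real.exp_le_exp.2
    apply mul_le_mul_of_nonneg_left _ hA0.le
    nlinarith
  rw [Real.exp_add, Real.exp_add]
  exact mul_le_mul (mul_le_mul h1 h2 (by positivity) (by positivity)) h5 (by positivity)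
    (by positivity)

private theorem fg_Ff (μ₁ μ₂ : ℂ) {A B : ℝ} (hA : 1 ≤ A)
    (h : ∀ (i : Fin 4) (k : ℕ) (x y : ℂ), ‖psi (ta i) (mf μ₁ μ₂ i) k x y‖ ≤
      A ^ (k + 1) * k.factorial * Real.exp (A * (1 + ‖x‖ ^ 2 + ‖y‖ ^ 2)))
    (hB : ∀ (i : Fin 4) (z : Fin 4 → ℂ), ‖Lf i z‖ ≤ B * ‖z‖ ∧ ‖Ls i z‖ ≤ B * ‖z‖)
    (L : ℕ) (p : (Fin 4 → Fin (L + 1)) → ℂ) (z : Fin 4 → ℂ) :
    ‖Ff μ₁ μ₂ L p z‖ ≤ (∑ k, ‖p k‖) * Real.exp (4 * ((L + 1) * Real.log A +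
      L * Real.log (L + 2) + A * (1 + 2 * B ^ 2 * ‖z‖ ^ 2))) := by
  unfold Ff
  rw [Finset.sum_mul]
  refine (norm_sum_le _ _).trans (Finset.sum_le_sum fun k _ => ?_)
  rw [norm_mul]
  refine mul_le_mul_of_nonneg_left ?_ (norm_nonneg _)
  rw [norm_prod]
  have e : Real.exp (4 * ((L + 1) * Real.log A +
      L * Real.log (L + 2) + A * (1 + 2 * B ^ 2 * ‖z‖ ^ 2))) =
      ∏ _i : Fin 4, Real.exp ((L + 1) * Real.log A +
      L * Real.log (L + 2) + A * (1 + 2 * B ^ 2 * ‖z‖ ^ 2)) := by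
    rw [Finset.prod_const, Finset.card_univ, Fintype.card_fin, ← Real.exp_nat_mul]
    norm_num
  rw [e]
  refine Finset.prod_le_prod (fun i _ => norm_nonneg _) fun i _ => ?_
  exact (h i _ _ _).trans (fg_psi_exp hA (Nat.lt_succ_iff.1 (k i).2) (hB i z).1 (hB i z).2)

private theorem fg_Xf {B : ℝ} (hB1 : 1 ≤ B)
    (hB : ∀ (i : Fin 4) (z : Fin 4 → ℂ), ‖Lf i z‖ ≤ B * ‖z‖ ∧ ‖Ls i z‖ ≤ B * ‖z‖)
    (s v : Fin 4 → ℂ) : |Xf s v| ≤ (∑ i, |hc (ta i)|) * B ^ 2 * (‖s‖ * ‖v‖) := by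
  unfold Xf
  refine (Finset.abs_sum_le_sum_abs _ _).trans ?_
  rw [Finset.sum_mul, Finset.sum_mul]
  refine Finset.sum_le_sum fun i _ => ?_
  rw [abs_mul, mul_assoc]
  refine mul_le_mul_of_nonneg_left ?_ (abs_nonneg _)
  refine (Complex.abs_im_le_norm _).trans ?_
  rw [norm_mul, RCLike.norm_conj]
  calc ‖Lf i s‖ * ‖Lf i v‖ ≤ (B * ‖s‖) * (B * ‖v‖) :=
        mul_le_mul (hB i s).1 (hB i v).1 (norm_nonneg _) (by positivity)
    _ = B ^ 2 * (‖s‖ * ‖v‖) := by ring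

private theorem fg_Qf {B : ℝ} (hB1 : 1 ≤ B)
    (hB : ∀ (i : Fin 4) (z : Fin 4 → ℂ), ‖Lf i z‖ ≤ B * ‖z‖ ∧ ‖Ls i z‖ ≤ B * ‖z‖)
    (z : Fin 4 → ℂ) : ‖cexp (-(Qf z) / 2)‖ ≤
      Real.exp ((∑ i, |hc (ta i)|) * B ^ 2 / 2 * ‖z‖ ^ 2) := by
  rw [Complex.norm_exp]
  apply Real.exp_le_exp.2
  refine (Complex.re_le_norm _).trans ?_
  rw [norm_div, norm_neg]
  have h2 : ‖(2 : ℂ)‖ = 2 := by simp
  rw [h2]
  have h3 : ‖Qf z‖ ≤ (∑ i, |hc (ta i)|) * (B ^ 2 * ‖z‖ ^ 2) := by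
    unfold Qf
    refine (norm_sum_le _ _).trans ?_
    rw [Finset.sum_mul]
    refine Finset.sum_le_sum fun i _ => ?_
    rw [norm_mul, norm_mul, mul_assoc, Complex.norm_real, Real.norm_eq_abs]
    refine mul_le_mul_of_nonneg_left ?_ (abs_nonneg _)
    calc ‖Lf i z‖ * ‖Ls i z‖ ≤ (B * ‖z‖) * (B * ‖z‖) :=
          mul_le_mul (hB i z).1 (hB i z).2 (norm_nonneg _) (by positivity)
      _ = B ^ 2 * ‖z‖ ^ 2 := by ring
  linarith

private theorem fg_norm (v : Fin 4 → ℂ) : ‖I • v‖ = ‖v‖ := by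
  rw [norm_smul, Complex.norm_I, one_mul]

/-- Proof. `cover`: `s = s' + lat κ`, `‖s'‖ ≤ 4`; by `Ft_shift_real` and additivity of `Xf` in `s` it is
enough to bound `‖Ft (s' + i v)‖ exp (- Xf s' v)`, and `|Xf s' v| ≤ C ‖v‖`. By `psi_bound`, `Lf_bound`:
`‖Ff (s' + i v)‖ ≤ ∑ ‖p k‖ ∏ C^(k_i + 1) k_i! exp (C (1 + ‖s' + i v‖^2))`, `k_i ≤ L`, `k! ≤ (L + 2)^L`,
`‖s' + i v‖^2 ≤ 32 + 2 ‖v‖^2`, `|Qf z| ≤ C ‖z‖^2`; the constants are absorbed in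
`C (L + 1) log (L + 2) ≥ C log 2`. -/
theorem F_growth (μ₁ μ₂ : ℂ) (h1 : μ₁ ≠ 0) (h2 : μ₂ ≠ 0) : ∃ C : ℝ, 1 ≤ C ∧ ∀ (L : ℕ)
    (p : (Fin 4 → Fin (L + 1)) → ℂ) (s v : Fin 4 → ℂ), IsR s → IsR v →
      ‖Ft μ₁ μ₂ L p (s + I • v)‖ ≤ (∑ k, ‖p k‖) *
        Real.exp (C * (L + 1) * Real.log (L + 2) + C * ‖v‖ ^ 2 + Xf s v) := by
  obtain ⟨A, hA, hpsi⟩ := fg_psi μ₁ μ₂
  obtain ⟨B, hB1, hB⟩ := Lf_bound
  obtain ⟨H, hH⟩ : ∃ H : ℝ, H = ∑ i, |hc (ta i)| := ⟨_, rfl⟩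
  have hH0 : 0 ≤ H := by
    rw [hH]
    exact Finset.sum_nonneg fun i _ => abs_nonneg _
  have hlA : 0 ≤ Real.log A := Real.log_nonneg hA
  obtain ⟨G, hG⟩ : ∃ G : ℝ, G = 8 * A * B ^ 2 + H * B ^ 2 / 2 := ⟨_, rfl⟩
  have hG0 : 0 ≤ G := by
    rw [hG]
    positivity
  have hHB : 0 ≤ H * B ^ 2 := by positivity
  refine ⟨8 * Real.log A + 4 + 8 * A + 66 * G + 9 * (H * B ^ 2), by linarith, ?_⟩
  intro L p s v hs hv
  obtain ⟨κ, s', hs', hn, rfl⟩ := cover s hs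
  have hXadd : Xf (s' + lat κ) v = Xf s' v + Xf (lat κ) v := by
    unfold Xf
    rw [← Finset.sum_add_distrib]
    refine Finset.sum_congr rfl fun i _ => ?_
    rw [Lf_add, add_mul, Complex.add_im]
    ring
  rw [Ft_shift_real μ₁ μ₂ L p κ s' v hs' hv, hXadd]
  have hz : ‖s' + I • v‖ ^ 2 ≤ 32 + 2 * ‖v‖ ^ 2 := by
    have h1 : ‖s' + I • v‖ ≤ 4 + ‖v‖ := by
      refine (norm_add_le _ _).trans ?_
      rw [fg_norm]
      linarith
    have h2 : ‖s' + I • v‖ ^ 2 ≤ (4 + ‖v‖) ^ 2 := pow_le_pow_left₀ (norm_nonneg _) h1 2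
    nlinarith [sq_nonneg (4 - ‖v‖)]
  have hF : ‖Ft μ₁ μ₂ L p (s' + I • v)‖ ≤ (∑ k, ‖p k‖) * Real.exp (4 * ((L + 1) * Real.log A +
      L * Real.log (L + 2) + A) + G * ‖s' + I • v‖ ^ 2) := by
    unfold Ft
    rw [norm_mul]
    refine (mul_le_mul (fg_Ff μ₁ μ₂ hA hpsi hB L p _) (fg_Qf hB1 hB _) (norm_nonneg _)
      (by positivity)).trans (le_of_eq ?_)
    rw [mul_assoc, ← Real.exp_add]
    congr 2
    rw [hG, ← hH]
    ring
  have hX : -Xf s' v ≤ H * B ^ 2 * (4 + ‖v‖ ^ 2) := by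
    have h1 := fg_Xf hB1 hB s' v
    rw [← hH] at h1
    have h2 : ‖s'‖ * ‖v‖ ≤ 4 + ‖v‖ ^ 2 := by
      have := mul_le_mul_of_nonneg_right hn (norm_nonneg v)
      nlinarith [sq_nonneg (‖v‖ - 2)]
    have h3 := mul_le_mul_of_nonneg_left h2 hHB
    have h4 := neg_abs_le (Xf s' v)
    linarith
  have hT : 1 / 2 * ((L : ℝ) + 1) ≤ (L + 1) * Real.log (L + 2) := by
    have h1 : (1 : ℝ) / 2 ≤ Real.log (L + 2) := by
      have h2 : Real.log 2 ≤ Real.log (L + 2) := Real.log_le_log (by norm_num) (by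
        have : (0 : ℝ) ≤ L := by positivity
        linarith)
      have := Real.log_two_gt_d9
      linarith
    have h3 : (0 : ℝ) ≤ (L : ℝ) + 1 := by positivity
    nlinarith
  obtain ⟨T, hTd⟩ : ∃ T : ℝ, T = (L + 1) * Real.log (L + 2) := ⟨_, rfl⟩
  have hlog0 : 0 ≤ Real.log ((L : ℝ) + 2) := Real.log_nonneg (by
    have : (0 : ℝ) ≤ L := by positivity
    linarith)
  have hL0 : (0 : ℝ) ≤ L := by positivity
  have hT2 : L * Real.log (L + 2) ≤ T := by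
    rw [hTd]
    nlinarith
  rw [← hTd] at hT
  have hT3 : 1 / 2 ≤ T := by linarith
  have key : 4 * ((L + 1) * Real.log A + L * Real.log (L + 2) + A) + G * ‖s' + I • v‖ ^ 2 ≤
      (8 * Real.log A + 4 + 8 * A + 66 * G + 9 * (H * B ^ 2)) * (L + 1) * Real.log (L + 2) +
        (8 * Real.log A + 4 + 8 * A + 66 * G + 9 * (H * B ^ 2)) * ‖v‖ ^ 2 + Xf s' v := by
    rw [mul_assoc, ← hTd]
    have h1 : G * ‖s' + I • v‖ ^ 2 ≤ G * (32 + 2 * ‖v‖ ^ 2) := mul_le_mul_of_nonneg_left hz hG0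
    have h2 : 4 * (((L : ℝ) + 1) * Real.log A) ≤ 8 * Real.log A * T := by
      have := mul_le_mul_of_nonneg_left hT hlA
      linarith
    have h3 : 4 * A ≤ 8 * A * T := by nlinarith
    have h4 : G * 32 ≤ 64 * G * T := by nlinarith
    have h5 : H * B ^ 2 * 4 ≤ 8 * (H * B ^ 2) * T := by nlinarith
    have h6 : 0 ≤ ‖v‖ ^ 2 := by positivity
    have h7 : 0 ≤ Real.log A * ‖v‖ ^ 2 := by positivity
    have h8 : 0 ≤ A * ‖v‖ ^ 2 := by positivity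
    have h9 : 0 ≤ G * ‖v‖ ^ 2 := by positivity
    have h10 : 0 ≤ H * B ^ 2 * ‖v‖ ^ 2 := by positivity
    have h11 : 0 ≤ G * T := by positivity
    have h12 : 0 ≤ H * B ^ 2 * T := by positivity
    nlinarith
  calc Real.exp (Xf (lat κ) v) * ‖Ft μ₁ μ₂ L p (s' + I • v)‖ ≤
      Real.exp (Xf (lat κ) v) * ((∑ k, ‖p k‖) * Real.exp ((8 * Real.log A + 4 + 8 * A + 66 * G +
        9 * (H * B ^ 2)) * (L + 1) * Real.log (L + 2) +
        (8 * Real.log A + 4 + 8 * A + 66 * G + 9 * (H * B ^ 2)) * ‖v‖ ^ 2 + Xf s' v)) := by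
        refine mul_le_mul_of_nonneg_left (hF.trans ?_) (Real.exp_pos _).le
        exact mul_le_mul_of_nonneg_left (Real.exp_le_exp.2 key)
          (Finset.sum_nonneg fun k _ => norm_nonneg _)
    _ = _ := by
      rw [mul_left_comm, ← Real.exp_add]
      congr 2
      ring

end

end Pool.Agent.Helper53.TA
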