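import Pool.Agent.Helper53.TA.Fl

/-!
PROJECT TA (MP_274814_nt), block F4, file Fd: points of `O_K` with `s0 κ → α`, `s1 κ / Q → β`, `Q → ∞`.
-/

namespace Pool.Agent.Helper53.TA

open Filter Topology Complex Pool.Agent.Helper49.TA

noncomputable section

/-- `q = 2 + √3` -/
def qq : ℝ := 2 + Real.sqrt 3

theorem qq_gt : 1 < qq := by
  have : 0 ≤ Real.sqrt 3 := Real.sqrt_nonneg 3
  unfold qq
  linarith

theorem qq_inv : (2 - Real.sqrt 3) = qq⁻¹ := by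
  have h := Real.sq_sqrt (show (0 : ℝ) ≤ 3 by norm_num)
  have hq : 0 < qq := lt_trans one_pos qq_gt
  refine eq_inv_of_mul_eq_one_left ?_
  unfold qq
  nlinarith

theorem unit_pow (n : ℕ) (κ : Fin 4 → ℤ) : ∃ ν : Fin 4 → ℤ,
    lat ν 0 = ((qq : ℂ)⁻¹) ^ n * lat κ 0 ∧ lat ν 1 = (qq : ℂ) ^ n * lat κ 1 := by
  induction n with
  | zero => exact ⟨κ, by simp⟩
  | succ n ih =>
    obtain ⟨ν, h0, h1⟩ := ih
    obtain ⟨ν', g0, g1⟩ := unit_inv ν
    refine ⟨ν', ?_, ?_⟩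
    · rw [g0, h0, pow_succ]
      have : (2 - (Real.sqrt 3 : ℝ) : ℂ) = (qq : ℂ)⁻¹ := by
        rw [← Complex.ofReal_inv, ← qq_inv]
        push_cast
        ring
      rw [this]
      ring
    · rw [g1, h1, pow_succ]
      have : (2 + (Real.sqrt 3 : ℝ) : ℂ) = (qq : ℂ) := by
        unfold qq
        push_cast
        ring
      rw [this]
      ring

/-- real point with prescribed first two coordinates -/
theorem round_pt (A B : ℂ) : ∃ κ : Fin 4 → ℤ, ‖lat κ 0 - A‖ ≤ 4 ∧ ‖lat κ 1 - B‖ ≤ 4 := by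
  obtain ⟨κ, s', hs', hn, he⟩ := cover (![A, B, (starRingEnd ℂ) A, (starRingEnd ℂ) B])
    ⟨by simp, by simp⟩
  refine ⟨κ, ?_, ?_⟩
  · have h0 := congrFun he 0
    simp only [Matrix.cons_val_zero, Pi.add_apply] at h0
    have : lat κ 0 - A = -(s' 0) := by rw [h0]; ring
    rw [this, norm_neg]
    exact (norm_le_pi_norm s' 0).trans hn
  · have h0 := congrFun he 1
    simp only [Matrix.cons_val_one, Matrix.cons_val_zero, Pi.add_apply] at h0
    have : lat κ 1 - B = -(s' 1) := by rw [h0]; ring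
    rw [this, norm_neg]
    exact (norm_le_pi_norm s' 1).trans hn

theorem dens (α β : ℂ) : ∃ (κ : ℕ → Fin 4 → ℤ) (Q : ℕ → ℝ), Tendsto Q atTop atTop ∧
    Tendsto (fun n => lat (κ n) 0) atTop (𝓝 α) ∧
    Tendsto (fun n => lat (κ n) 1 / (Q n : ℂ)) atTop (𝓝 β) := by
  have hq := qq_gt
  have hq0 : 0 < qq := lt_trans one_pos hq
  have hqC : (qq : ℂ) ≠ 0 := by exact_mod_cast hq0.ne'
  have key : ∀ n : ℕ, ∃ κ : Fin 4 → ℤ, ‖lat κ 0 - α‖ ≤ 4 * (qq⁻¹) ^ n ∧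
      ‖lat κ 1 / ((qq ^ (2 * n) : ℝ) : ℂ) - β‖ ≤ 4 * (qq⁻¹) ^ n := by
    intro n
    obtain ⟨κ', h0, h1⟩ := round_pt ((qq : ℂ) ^ n * α) ((qq : ℂ) ^ n * β)
    obtain ⟨κ, g0, g1⟩ := unit_pow n κ'
    refine ⟨κ, ?_, ?_⟩
    · have e : lat κ 0 - α = ((qq : ℂ)⁻¹) ^ n * (lat κ' 0 - (qq : ℂ) ^ n * α) := by
        rw [g0, mul_sub, ← mul_assoc, ← mul_pow, inv_mul_cancel₀ hqC]
        ring
      rw [e, norm_mul, norm_pow, norm_inv, Complex.norm_real, Real.norm_of_nonneg hq0.le]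
      nlinarith [pow_nonneg (inv_nonneg.2 hq0.le) n]
    · have e : lat κ 1 / ((qq ^ (2 * n) : ℝ) : ℂ) - β =
          ((qq : ℂ)⁻¹) ^ n * (lat κ' 1 - (qq : ℂ) ^ n * β) := by
        rw [g1]
        push_cast
        rw [inv_pow]
        have h2 : (qq : ℂ) ^ n ≠ 0 := pow_ne_zero _ hqC
        rw [two_mul, pow_add]
        field_simp
      rw [e, norm_mul, norm_pow, norm_inv, Complex.norm_real, Real.norm_of_nonneg hq0.le]
      nlinarith [pow_nonneg (inv_nonneg.2 hq0.le) n]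
  choose κ h0 h1 using key
  have hz : Tendsto (fun n : ℕ => 4 * (qq⁻¹) ^ n) atTop (𝓝 0) := by
    have := (tendsto_pow_atTop_nhds_zero_of_lt_one (inv_nonneg.2 hq0.le)
      (inv_lt_one_of_one_lt₀ hq)).const_mul 4
    simpa using this
  refine ⟨κ, fun n => qq ^ (2 * n), ?_, ?_, ?_⟩
  · have : Tendsto (fun n : ℕ => 2 * n) atTop atTop :=
      tendsto_id.const_mul_atTop' (by norm_num)
    exact (tendsto_pow_atTop_atTop_of_one_lt hq).comp this
  · rw [tendsto_iff_norm_sub_tendsto_zero]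
    exact squeeze_zero (fun n => norm_nonneg _) h0 hz
  · rw [tendsto_iff_norm_sub_tendsto_zero]
    exact squeeze_zero (fun n => norm_nonneg _) h1 hz

end

end Pool.Agent.Helper53.TA
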