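import Pool.Agent.Helper53.TA.Fc
import Pool.Agent.Helper53.TA.Fd
import Pool.Agent.Helper53.TA.Fp

/-!
PROJECT TA (MP_274814_nt), block F4: `F_ne` of `Tg.lean`.
-/

namespace Pool.Agent.Helper53.TA

open Complex Pool.Agent.Helper49.TA

noncomputable section

/-- the function on `ℂ⁸` -/
def PF (μ₁ μ₂ : ℂ) (L : ℕ) (p : (Fin 4 → Fin (L + 1)) → ℂ) (u v : Fin 4 → ℂ) : ℂ :=
  ∑ k : Fin 4 → Fin (L + 1), p k * ∏ i, psi (ta i) (mf μ₁ μ₂ i) (k i) (u i) (v i)

theorem PF_shift (μ₁ μ₂ : ℂ) (L : ℕ) (p : (Fin 4 → Fin (L + 1)) → ℂ) (m n : Fin 4 → ℤ)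
    (u v : Fin 4 → ℂ) (h : PF μ₁ μ₂ L p u v = 0) :
    PF μ₁ μ₂ L p (fun i => u i + (m i + n i * ta i))
      (fun i => v i + (starRingEnd ℂ) (m i + n i * ta i)) = 0 := by
  choose χ hχ hadd using fun i => psi_add (ta_im i) (m i) (n i)
  have e : PF μ₁ μ₂ L p (fun i => u i + (m i + n i * ta i))
      (fun i => v i + (starRingEnd ℂ) (m i + n i * ta i)) =
      (∏ i, (χ i * cexp (hc (ta i) * ((starRingEnd ℂ) (m i + n i * ta i) * u i +
          (m i + n i * ta i) * (starRingEnd ℂ) (m i + n i * ta i) / 2)))) *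
        PF μ₁ μ₂ L p u v := by
    unfold PF
    rw [Finset.mul_sum]
    refine Finset.sum_congr rfl fun k _ => ?_
    rw [Finset.prod_congr rfl fun i _ => hadd i (mf μ₁ μ₂ i) (k i) (u i) (v i),
      Finset.prod_mul_distrib]
    ring
  rw [e, h, mul_zero]

/-- linear independence of the functions `y ↦ psi τ μ k 0 y` -/
theorem psi_indep {τ : ℂ} (hτ : 0 < τ.im) (h0 : Sf τ 0 ≠ 0) (μ : ℂ) (hμ : μ ≠ 0) (L : ℕ)
    (c : Fin (L + 1) → ℂ) (h : ∀ y, ∑ k : Fin (L + 1), c k * psi τ μ k 0 y = 0) : c = 0 := by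
  classical
  have hh : (hc τ : ℂ) ≠ 0 := by
    have : 0 < hc τ := div_pos Real.pi_pos hτ
    exact_mod_cast this.ne'
  let Q : ℕ → Polynomial ℂ := fun k => Polynomial.C (μ⁻¹ ^ k) *
    ∑ j ∈ Finset.range (k + 1), Polynomial.C ((k.choose j : ℂ) * iteratedDeriv (k - j) (Sf τ) 0 *
      (-(hc τ)) ^ j) * Polynomial.X ^ j
  have hQ : ∀ k y, (Q k).eval y = psi τ μ k 0 y := by
    intro k y
    simp only [Q, psi, Polynomial.eval_mul, Polynomial.eval_C, Polynomial.eval_finsetSum,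
      Polynomial.eval_pow, Polynomial.eval_X]
    congr 1
    refine Finset.sum_congr rfl fun j _ => ?_
    rw [mul_pow]
    ring
  have hcoef : ∀ k j, (Q k).coeff j = if j ≤ k then μ⁻¹ ^ k * ((k.choose j : ℂ) *
      iteratedDeriv (k - j) (Sf τ) 0 * (-(hc τ)) ^ j) else 0 := by
    intro k j
    simp only [Q, Polynomial.coeff_C_mul, Polynomial.finsetSum_coeff, Polynomial.coeff_X_pow]
    split_ifs with hjk
    · congr 1
      rw [Finset.sum_eq_single j]
      · simp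
      · intro i _ hi
        rw [if_neg (Ne.symm hi), mul_zero]
      · intro hj
        exact absurd (Finset.mem_range.2 (Nat.lt_succ_of_le hjk)) hj
    · rw [Finset.sum_eq_zero, mul_zero]
      intro i hi
      have := Finset.mem_range.1 hi
      rw [if_neg (by omega), mul_zero]
  have hpoly : ∑ k : Fin (L + 1), Polynomial.C (c k) * Q k = 0 := by
    apply Polynomial.funext
    intro y
    rw [Polynomial.eval_finsetSum, Polynomial.eval_zero, ← h y]
    refine Finset.sum_congr rfl fun k _ => ?_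
    rw [Polynomial.eval_mul, Polynomial.eval_C, hQ]
  let M : Matrix (Fin (L + 1)) (Fin (L + 1)) ℂ := fun j k => (Q k).coeff j
  have htri : M.BlockTriangular id := by
    intro j k hjk
    change (Q k).coeff j = 0
    rw [hcoef, if_neg (by simpa using hjk)]
  have hdet : M.det ≠ 0 := by
    rw [Matrix.det_of_isUpperTriangular htri]
    refine Finset.prod_ne_zero_iff.2 fun k _ => ?_
    change (Q k).coeff k ≠ 0
    rw [hcoef, if_pos le_rfl]
    simp only [Nat.choose_self, Nat.cast_one, Nat.sub_self, iteratedDeriv_zero, one_mul]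
    exact mul_ne_zero (pow_ne_zero _ (inv_ne_zero hμ))
      (mul_ne_zero h0 (pow_ne_zero _ (neg_ne_zero.2 hh)))
  refine Matrix.eq_zero_of_mulVec_eq_zero hdet ?_
  funext j
  have := congrArg (fun P : Polynomial ℂ => P.coeff j) hpoly
  simp only [Polynomial.finsetSum_coeff, Polynomial.coeff_C_mul, Polynomial.coeff_zero] at this
  simp only [Matrix.mulVec, dotProduct, M, Pi.zero_apply]
  rw [← this]
  refine Finset.sum_congr rfl fun k _ => ?_
  ring

/-- tensor products of independent families -/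
theorem tensor_indep {A : Type} [Fintype A] : ∀ (n : ℕ) (φ : Fin n → A → ℂ → ℂ),
    (∀ i, ∀ c : A → ℂ, (∀ y, ∑ k, c k * φ i k y = 0) → c = 0) →
    ∀ p : (Fin n → A) → ℂ, (∀ v : Fin n → ℂ, ∑ k, p k * ∏ i, φ i (k i) (v i) = 0) →
      ∀ k, p k = 0 := by
  intro n
  induction n with
  | zero =>
    intro φ _ p h k
    have := h (fun _ => 0)
    simp only [Finset.univ_eq_empty, Finset.prod_empty, mul_one] at this
    rw [Fintype.sum_unique] at this
    rw [Subsingleton.elim k default]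
    exact this
  | succ n ih =>
    intro φ hφ p h k
    have h1 : ∀ (v' : Fin n → ℂ) (k0 : A), ∑ k' : Fin n → A, p (Fin.cons k0 k') *
        ∏ i, φ i.succ (k' i) (v' i) = 0 := by
      intro v'
      have h2 := hφ 0 (fun k0 => ∑ k' : Fin n → A, p (Fin.cons k0 k') *
        ∏ i, φ i.succ (k' i) (v' i)) (fun y => by
          have h3 := h (Fin.cons y v')
          rw [← (Fin.consEquiv (fun _ => A)).sum_comp, Fintype.sum_prod_type] at h3
          rw [← h3]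
          refine Finset.sum_congr rfl fun k0 _ => ?_
          rw [Finset.sum_mul]
          refine Finset.sum_congr rfl fun k' _ => ?_
          have e : (Fin.consEquiv (fun _ => A)) (k0, k') = Fin.cons k0 k' := rfl
          rw [e, Fin.prod_univ_succ]
          simp only [Fin.cons_zero, Fin.cons_succ]
          ring)
      intro k0
      exact congrFun h2 k0
    have h2 := ih (fun i => φ i.succ) (fun i => hφ i.succ) (fun k' => p (Fin.cons (k 0) k'))
      (fun v' => h1 v' (k 0)) (fun i => k i.succ)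
    have h3 : k = Fin.cons (k 0) (fun i => k i.succ) := (Fin.cons_self_tail k).symm
    rw [h3]
    exact h2

theorem Sf0_ne (i : Fin 4) : Sf (ta i) 0 ≠ 0 := by
  have h : jacobiTheta₂ 0 (ta i) ≠ 0 := by
    fin_cases i
    · exact theta_zero_I
    · exact theta_zero_I
    · exact theta_zero_rho
    · exact theta_zero_rho
  rw [Sf_zero h]
  exact one_ne_zero

theorem PF_ne (μ₁ μ₂ : ℂ) (h1 : μ₁ ≠ 0) (h2 : μ₂ ≠ 0) (L : ℕ)
    (p : (Fin 4 → Fin (L + 1)) → ℂ) (h : ∀ v, PF μ₁ μ₂ L p 0 v = 0) : ∀ k, p k = 0 := by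
  refine tensor_indep 4 (fun i (k : Fin (L + 1)) y => psi (ta i) (mf μ₁ μ₂ i) (k : ℕ) 0 y)
    (fun i c hc => ?_) p (fun v => h v)
  refine psi_indep (ta_im i) (Sf0_ne i) (mf μ₁ μ₂ i) ?_ L c hc
  fin_cases i
  · exact h1
  · exact h1
  · exact h2
  · exact h2

/-- the complement -/
def vw (a b c d : ℂ) : Fin 4 → ℂ :=
  ![(rho * d - (starRingEnd ℂ) rho * c) / (rho - (starRingEnd ℂ) rho),
    (c - d) / (rho - (starRingEnd ℂ) rho), (a - b) / 2, (a - b) / (2 * I)]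

theorem psi_Pf (τ μ : ℂ) (hτ : 0 < τ.im) (k : ℕ) (x : ℂ → ℂ) (hx : Differentiable ℂ x)
    {y : ℂ → ℂ → ℂ → ℂ → ℂ} (hy : Pf y) : Pf (fun a b c d => psi τ μ k (x a) (y a b c d)) := by
  unfold psi
  refine (Pf.const _).mul (Pf.sum _ fun j => ?_)
  refine ((Pf.const _).mul (Pf.fa (g := fun a => iteratedDeriv (k - j) (Sf τ) (x a)) ?_)).mul
    (((Pf.const _).mul hy).pow j)
  exact (iter_diff (Sf_differentiable hτ) _).comp hx

theorem vw_Pf (i : Fin 4) (z : ℂ) : Pf (fun a b c d => z + vw a b c d i) := by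
  have hm : ∀ {G H : ℂ → ℂ → ℂ → ℂ → ℂ}, Pf G → Pf H → ∀ w : ℂ,
      Pf (fun a b c d => (G a b c d - H a b c d) / w) := by
    intro G H hG hH w
    have := (hG.add ((Pf.const (-1)).mul hH)).mul (Pf.const w⁻¹)
    refine (show (fun a b c d => (G a b c d - H a b c d) / w) =
      (fun a b c d => (G a b c d + -1 * H a b c d) * w⁻¹) from ?_) ▸ this
    funext a b c d
    ring
  have va : Pf (fun a _ _ _ => a) := Pf.fa differentiable_id
  fin_cases i
  · exact (Pf.const z).add (hm ((Pf.const rho).mul Pf.vd)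
      ((Pf.const ((starRingEnd ℂ) rho)).mul Pf.vc) _)
  · exact (Pf.const z).add (hm Pf.vc Pf.vd _)
  · exact (Pf.const z).add (hm va Pf.vb _)
  · exact (Pf.const z).add (hm va Pf.vb _)

theorem G_Pf (μ₁ μ₂ : ℂ) (L : ℕ) (p : (Fin 4 → Fin (L + 1)) → ℂ) (z : Fin 4 → ℂ) :
    Pf (fun a b c d => PF μ₁ μ₂ L p (fun i => Lf i z + (![a, 0, 0, 0] : Fin 4 → ℂ) i)
      (fun i => Ls i z + vw a b c d i)) := by
  unfold PF
  refine Pf.sum _ fun k => (Pf.const _).mul (Pf.prod _ fun i => ?_)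
  refine psi_Pf (ta i) (mf μ₁ μ₂ i) (ta_im i) (k i)
    (fun a => Lf i z + (![a, 0, 0, 0] : Fin 4 → ℂ) i) ?_ (vw_Pf i (Ls i z))
  refine (differentiable_const _).add ?_
  fin_cases i
  · exact differentiable_id
  · exact differentiable_const 0
  · exact differentiable_const 0
  · exact differentiable_const 0

theorem Lf0 (z : Fin 4 → ℂ) : Lf 0 z =
    (rho * z 1 - (starRingEnd ℂ) rho * z 0) / (rho - (starRingEnd ℂ) rho) := rfl

theorem Lf1 (z : Fin 4 → ℂ) : Lf 1 z = (z 0 - z 1) / (rho - (starRingEnd ℂ) rho) := rfl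

theorem Lf2 (z : Fin 4 → ℂ) : Lf 2 z = (z 0 + z 3) / 2 := rfl

theorem Lf3 (z : Fin 4 → ℂ) : Lf 3 z = (z 0 - z 3) / (2 * I) := rfl

theorem Ls0 (z : Fin 4 → ℂ) : Ls 0 z =
    ((starRingEnd ℂ) rho * z 3 - rho * z 2) / ((starRingEnd ℂ) rho - rho) := rfl

theorem Ls1 (z : Fin 4 → ℂ) : Ls 1 z = (z 2 - z 3) / ((starRingEnd ℂ) rho - rho) := rfl

theorem Ls2 (z : Fin 4 → ℂ) : Ls 2 z = (z 2 + z 1) / 2 := rfl

theorem Ls3 (z : Fin 4 → ℂ) : Ls 3 z = (z 1 - z 2) / (2 * I) := rfl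

theorem G_zero (μ₁ μ₂ : ℂ) (L : ℕ) (p : (Fin 4 → Fin (L + 1)) → ℂ)
    (h : ∀ z, Ff μ₁ μ₂ L p z = 0) (z : Fin 4 → ℂ) (a b c d : ℂ) :
    PF μ₁ μ₂ L p (fun i => Lf i z + (![a, 0, 0, 0] : Fin 4 → ℂ) i)
      (fun i => Ls i z + vw a b c d i) = 0 := by
  refine vanish (fun κ : Fin 4 → ℤ => lat κ 0) (fun κ => lat κ 1) (fun α β => dens α β)
    (G_Pf μ₁ μ₂ L p z) ?_ a b c d
  intro κ
  have hd := rho_ne
  have hd' : (starRingEnd ℂ) rho - rho ≠ 0 := fun h => hd (by rw [← neg_sub, h, neg_zero])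
  have l0 : lat κ 0 = (κ 0 + κ 1 * I) + (κ 2 + κ 3 * I) * rho := rfl
  have l1 : lat κ 1 = (κ 0 + κ 1 * I) + (κ 2 + κ 3 * I) * (starRingEnd ℂ) rho := rfl
  have e := PF_shift μ₁ μ₂ L p ![κ 0, κ 2, 0, 0] ![κ 1, κ 3, 0, 0]
    (fun i => Lf i (z + ![0, lat κ 0 - lat κ 1, 0, 0]))
    (fun i => Ls i (z + ![0, lat κ 0 - lat κ 1, 0, 0])) (h _)
  have eu : (fun i => Lf i (z + ![0, lat κ 0 - lat κ 1, 0, 0]) +
      (((![κ 0, κ 2, 0, 0] : Fin 4 → ℤ) i : ℂ) + ((![κ 1, κ 3, 0, 0] : Fin 4 → ℤ) i : ℂ) * ta i)) =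
      (fun i => Lf i z + (![lat κ 0, 0, 0, 0] : Fin 4 → ℂ) i) := by
    funext i
    fin_cases i
    · change Lf 0 _ + (((κ 0 : ℤ) : ℂ) + ((κ 1 : ℤ) : ℂ) * I) = Lf 0 z + lat κ 0
      rw [Lf0, Lf0]
      change (rho * (z 1 + (lat κ 0 - lat κ 1)) - (starRingEnd ℂ) rho * (z 0 + 0)) /
        (rho - (starRingEnd ℂ) rho) + _ = _
      rw [l0, l1]
      field_simp
      ring
    · change Lf 1 _ + (((κ 2 : ℤ) : ℂ) + ((κ 3 : ℤ) : ℂ) * I) = Lf 1 z + 0
      rw [Lf1, Lf1]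
      change ((z 0 + 0) - (z 1 + (lat κ 0 - lat κ 1))) / (rho - (starRingEnd ℂ) rho) + _ = _
      rw [l0, l1]
      field_simp
      ring
    · change Lf 2 _ + (((0 : ℤ) : ℂ) + ((0 : ℤ) : ℂ) * rho) = Lf 2 z + 0
      rw [Lf2, Lf2]
      change ((z 0 + 0) + (z 3 + 0)) / 2 + _ = _
      push_cast
      ring
    · change Lf 3 _ + (((0 : ℤ) : ℂ) + ((0 : ℤ) : ℂ) * rho) = Lf 3 z + 0
      rw [Lf3, Lf3]
      change ((z 0 + 0) - (z 3 + 0)) / (2 * I) + _ = _
      push_cast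
      ring
  have ev : (fun i => Ls i (z + ![0, lat κ 0 - lat κ 1, 0, 0]) + (starRingEnd ℂ)
      (((![κ 0, κ 2, 0, 0] : Fin 4 → ℤ) i : ℂ) + ((![κ 1, κ 3, 0, 0] : Fin 4 → ℤ) i : ℂ) * ta i)) =
      (fun i => Ls i z + vw (lat κ 0) (lat κ 1) ((starRingEnd ℂ) (lat κ 1))
        ((starRingEnd ℂ) (lat κ 0)) i) := by
    have c0 : (starRingEnd ℂ) (lat κ 0) = (κ 0 - κ 1 * I) + (κ 2 - κ 3 * I) *
        (starRingEnd ℂ) rho := by
      rw [l0]
      simp only [map_add, map_mul, map_intCast, Complex.conj_I]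
      ring
    have c1 : (starRingEnd ℂ) (lat κ 1) = (κ 0 - κ 1 * I) + (κ 2 - κ 3 * I) * rho := by
      rw [l1]
      simp only [map_add, map_mul, map_intCast, Complex.conj_I, Complex.conj_conj]
      ring
    funext i
    fin_cases i
    · change Ls 0 _ + (starRingEnd ℂ) (((κ 0 : ℤ) : ℂ) + ((κ 1 : ℤ) : ℂ) * I) = Ls 0 z +
        (rho * (starRingEnd ℂ) (lat κ 0) - (starRingEnd ℂ) rho * (starRingEnd ℂ) (lat κ 1)) /
          (rho - (starRingEnd ℂ) rho)
      rw [Ls0, Ls0, c0, c1]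
      change ((starRingEnd ℂ) rho * (z 3 + 0) - rho * (z 2 + 0)) / ((starRingEnd ℂ) rho - rho) +
        _ = _
      simp only [map_add, map_mul, map_intCast, Complex.conj_I]
      rw [add_zero, add_zero]
      congr 1
      rw [eq_div_iff hd]
      ring
    · change Ls 1 _ + (starRingEnd ℂ) (((κ 2 : ℤ) : ℂ) + ((κ 3 : ℤ) : ℂ) * I) = Ls 1 z +
        ((starRingEnd ℂ) (lat κ 1) - (starRingEnd ℂ) (lat κ 0)) / (rho - (starRingEnd ℂ) rho)
      rw [Ls1, Ls1, c0, c1]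
      change ((z 2 + 0) - (z 3 + 0)) / ((starRingEnd ℂ) rho - rho) + _ = _
      simp only [map_add, map_mul, map_intCast, Complex.conj_I]
      rw [add_zero, add_zero]
      congr 1
      rw [eq_div_iff hd]
      ring
    · change Ls 2 _ + (starRingEnd ℂ) (((0 : ℤ) : ℂ) + ((0 : ℤ) : ℂ) * rho) = Ls 2 z +
        (lat κ 0 - lat κ 1) / 2
      rw [Ls2, Ls2]
      change ((z 2 + 0) + (z 1 + (lat κ 0 - lat κ 1))) / 2 + _ = _
      simp only [Int.cast_zero, zero_mul, add_zero, map_zero]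
      ring
    · change Ls 3 _ + (starRingEnd ℂ) (((0 : ℤ) : ℂ) + ((0 : ℤ) : ℂ) * rho) = Ls 3 z +
        (lat κ 0 - lat κ 1) / (2 * I)
      rw [Ls3, Ls3]
      change ((z 1 + (lat κ 0 - lat κ 1)) - (z 2 + 0)) / (2 * I) + _ = _
      simp only [Int.cast_zero, zero_mul, add_zero, map_zero]
      ring
  rw [eu, ev] at e
  exact e

theorem F_ne (μ₁ μ₂ : ℂ) (L : ℕ) (p : (Fin 4 → Fin (L + 1)) → ℂ) (h1 : μ₁ ≠ 0) (h2 : μ₂ ≠ 0)
    (h : ∀ z, Ff μ₁ μ₂ L p z = 0) : ∀ k, p k = 0 := by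
  refine PF_ne μ₁ μ₂ h1 h2 L p fun v => ?_
  have hd := rho_ne
  have hd' : (starRingEnd ℂ) rho - rho ≠ 0 := fun h => hd (by rw [← neg_sub, h, neg_zero])
  have hI := Complex.I_ne_zero
  have hII := Complex.I_mul_I
  -- coordinates of the point `(0, v)`
  set b : ℂ := -(v 2) - I * v 3 with hb
  set c : ℂ := v 0 + rho * v 1 with hc'
  set d : ℂ := v 0 + (starRingEnd ℂ) rho * v 1 - v 2 + I * v 3 with hd2
  have e := G_zero μ₁ μ₂ L p h ![0, v 2 + I * v 3 + b, v 2 - I * v 3, 0] 0 b c d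
  have eu : (fun i => Lf i ![0, v 2 + I * v 3 + b, v 2 - I * v 3, 0] +
      (![0, 0, 0, 0] : Fin 4 → ℂ) i) = 0 := by
    have hz : v 2 + I * v 3 + b = 0 := by rw [hb]; ring
    rw [hz]
    funext i
    fin_cases i
    · change (rho * 0 - (starRingEnd ℂ) rho * 0) / (rho - (starRingEnd ℂ) rho) + 0 = 0
      simp
    · change (0 - 0) / (rho - (starRingEnd ℂ) rho) + (0 : ℂ) = 0
      simp
    · change (0 + 0) / 2 + (0 : ℂ) = 0
      simp
    · change (0 - 0) / (2 * I) + (0 : ℂ) = 0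
      simp
  have ev : (fun i => Ls i ![0, v 2 + I * v 3 + b, v 2 - I * v 3, 0] + vw 0 b c d i) = v := by
    have hz : v 2 + I * v 3 + b = 0 := by rw [hb]; ring
    rw [hz]
    funext i
    fin_cases i
    · change ((starRingEnd ℂ) rho * 0 - rho * (v 2 - I * v 3)) / ((starRingEnd ℂ) rho - rho) +
        (rho * d - (starRingEnd ℂ) rho * c) / (rho - (starRingEnd ℂ) rho) = v 0
      rw [hc', hd2, div_add_div _ _ hd' hd, div_eq_iff (mul_ne_zero hd' hd)]
      ring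
    · change ((v 2 - I * v 3) - 0) / ((starRingEnd ℂ) rho - rho) +
        (c - d) / (rho - (starRingEnd ℂ) rho) = v 1
      rw [hc', hd2, div_add_div _ _ hd' hd, div_eq_iff (mul_ne_zero hd' hd)]
      ring
    · change ((v 2 - I * v 3) + 0) / 2 + (0 - b) / 2 = v 2
      rw [hb]
      ring
    · change (0 - (v 2 - I * v 3)) / (2 * I) + (0 - b) / (2 * I) = v 3
      rw [hb, ← add_div, div_eq_iff (mul_ne_zero two_ne_zero hI)]
      ring
  rw [eu, ev] at e
  exact e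

end

end Pool.Agent.Helper53.TA
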