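import Pool.Agent.Helper53.TA.Fp
import Pool.Agent.Helper53.TA.Fl

/-!
PROJECT TA (MP_274814_nt), block F, file Fo: `F_poly` of `Tg.lean`.
The lemmas of `Fp.lean`, `Fl.lean` may be used even if they are not proved yet.
-/

namespace Pool.Agent.Helper53.TA

open Complex Pool.Agent.Helper49.TA

noncomputable section

/-- polynomials in `z 2` of degree at most `n` with entire coefficients independent of `z 2` -/
def Pd (n : ℕ) (F : (Fin 4 → ℂ) → ℂ) : Prop :=
  ∃ G : ℕ → (Fin 4 → ℂ) → ℂ, (∀ j, Differentiable ℂ (G j)) ∧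
    (∀ j z w, G j (Function.update z 2 w) = G j z) ∧
    ∀ z, F z = ∑ j ∈ Finset.range (n + 1), G j z * z 2 ^ j

theorem Pd.mono {m n : ℕ} (h : m ≤ n) {F : (Fin 4 → ℂ) → ℂ} (hF : Pd m F) : Pd n F := by
  obtain ⟨G, h1, h2, h3⟩ := hF
  refine ⟨fun j z => if j ≤ m then G j z else 0, fun j => ?_, fun j z w => ?_, fun z => ?_⟩
  · by_cases hj : j ≤ m
    · simpa [hj] using h1 j
    · simp [hj]
  · by_cases hj : j ≤ m
    · simpa [hj] using h2 j z w
    · simp [hj]
  · rw [h3 z]
    have hsub : Finset.range (m + 1) ⊆ Finset.range (n + 1) := by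
      intro x hx
      rw [Finset.mem_range] at hx ⊢
      omega
    rw [← Finset.sum_subset hsub]
    · refine Finset.sum_congr rfl fun j hj => ?_
      rw [Finset.mem_range] at hj
      have hj' : j ≤ m := by omega
      simp [hj']
    · intro j _ hj
      rw [Finset.mem_range] at hj
      have hj' : ¬ j ≤ m := by omega
      simp [hj']

theorem Pd.add {n : ℕ} {F H : (Fin 4 → ℂ) → ℂ} (hF : Pd n F) (hH : Pd n H) :
    Pd n (fun z => F z + H z) := by
  obtain ⟨G, h1, h2, h3⟩ := hF
  obtain ⟨G', h1', h2', h3'⟩ := hH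
  refine ⟨fun j z => G j z + G' j z, fun j => (h1 j).add (h1' j), fun j z w => ?_, fun z => ?_⟩
  · simp only [h2, h2']
  · simp only [h3 z, h3' z, add_mul, Finset.sum_add_distrib]

private theorem Pd.zero (n : ℕ) : Pd n (fun _ => 0) :=
  ⟨fun _ _ => 0, fun _ => differentiable_const _, fun _ _ _ => rfl, fun z => by simp⟩

private theorem Pd.sum {n : ℕ} {ι : Type} (s : Finset ι) (F : ι → (Fin 4 → ℂ) → ℂ)
    (hF : ∀ i ∈ s, Pd n (F i)) : Pd n (fun z => ∑ i ∈ s, F i z) := by
  classical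
  induction s using Finset.induction_on with
  | empty => simpa using Pd.zero n
  | insert a t ha ih =>
    have h1 : Pd n (fun z => ∑ i ∈ t, F i z) :=
      ih fun i hi => hF i (Finset.mem_insert_of_mem hi)
    have h2 := (hF a (Finset.mem_insert_self a t)).add h1
    simpa [Finset.sum_insert ha] using h2

private theorem Pd.shift {n : ℕ} (a : ℕ) {g : (Fin 4 → ℂ) → ℂ} (hg : Differentiable ℂ g)
    (hg2 : ∀ z w, g (Function.update z 2 w) = g z) {H : (Fin 4 → ℂ) → ℂ} (hH : Pd n H) :
    Pd (a + n) (fun z => g z * z 2 ^ a * H z) := by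
  obtain ⟨G, h1, h2, h3⟩ := hH
  refine ⟨fun j z => if a ≤ j then g z * G (j - a) z else 0, fun j => ?_, fun j z w => ?_,
    fun z => ?_⟩
  · by_cases hj : a ≤ j
    · simp only [hj, if_true]
      exact hg.mul (h1 (j - a))
    · simp [hj]
  · by_cases hj : a ≤ j
    · simp only [hj, if_true, hg2, h2]
    · simp [hj]
  · rw [add_assoc, Finset.sum_range_add]
    have h0 : ∑ j ∈ Finset.range a, (if a ≤ j then g z * G (j - a) z else 0) * z 2 ^ j = 0 := by
      refine Finset.sum_eq_zero fun j hj => ?_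
      rw [Finset.mem_range] at hj
      have hj' : ¬ a ≤ j := by omega
      simp [hj']
    rw [h0, zero_add]
    simp only [h3 z, Finset.mul_sum]
    refine Finset.sum_congr rfl fun j _ => ?_
    rw [if_pos (Nat.le_add_right a j), Nat.add_sub_cancel_left, pow_add]
    ring

theorem Pd.mul {m n : ℕ} {F H : (Fin 4 → ℂ) → ℂ} (hF : Pd m F) (hH : Pd n H) :
    Pd (m + n) (fun z => F z * H z) := by
  obtain ⟨G, h1, h2, h3⟩ := hF
  have h4 : (fun z => F z * H z) =
      fun z => ∑ a ∈ Finset.range (m + 1), G a z * z 2 ^ a * H z := by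
    funext z
    rw [h3 z, Finset.sum_mul]
  rw [h4]
  refine Pd.sum _ _ fun a ha => ?_
  rw [Finset.mem_range] at ha
  exact (Pd.shift a (h1 a) (h2 a) hH).mono (by omega)

private theorem Pd.const {g : (Fin 4 → ℂ) → ℂ} (hg : Differentiable ℂ g)
    (hg2 : ∀ z w, g (Function.update z 2 w) = g z) : Pd 0 g :=
  ⟨fun _ => g, fun _ => hg, fun _ => hg2, fun z => by simp⟩

private theorem Pd.pow {F : (Fin 4 → ℂ) → ℂ} (hF : Pd 1 F) (j : ℕ) : Pd j (fun z => F z ^ j) := by
  induction j with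
  | zero => simpa using Pd.const (g := fun _ => (1 : ℂ)) (differentiable_const _) fun _ _ => rfl
  | succ j ih => simpa [pow_succ] using ih.mul hF

private theorem Lf_upd (i : Fin 4) (z : Fin 4 → ℂ) (w : ℂ) :
    Lf i (Function.update z 2 w) = Lf i z := by
  fin_cases i <;> simp [Lf]

private theorem Pd_Ls (i : Fin 4) (c : ℂ) : Pd 1 (fun z => c * Ls i z) := by
  have h0 : ∀ z w : Fin 4 → ℂ, z = w → Ls i z = Ls i w := fun z w h => by rw [h]
  refine ⟨fun j z => if j = 0 then c * Ls i (z - z 2 • Pi.single 2 1)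
    else c * Ls i (Pi.single 2 1), fun j => ?_, fun j z w => ?_, fun z => ?_⟩
  · by_cases hj : j = 0
    · simp only [hj, if_true]
      refine Differentiable.const_mul ?_ _
      refine (Ls_diff i).comp ?_
      exact differentiable_id.sub ((differentiable_apply 2).smul_const _)
    · simp [hj]
  · by_cases hj : j = 0
    · simp only [hj, if_true]
      congr 1
      apply h0
      funext k
      fin_cases k <;> simp
    · simp [hj]
  · rw [Finset.sum_range_succ, Finset.sum_range_one]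
    simp only [if_true, one_ne_zero, if_false, pow_zero, mul_one, pow_one]
    have h1 : z = (z - z 2 • Pi.single 2 1) + z 2 • Pi.single 2 1 := by simp
    have h2 := Ls_add i (z - z 2 • Pi.single 2 1) (z 2 • Pi.single 2 1)
    rw [← h1, Ls_smul] at h2
    rw [h2]
    ring

/-- `Lf i` does not depend on `z 2`, `Ls i` is of degree `1` in it; `psi` is a polynomial of degree `k` in
`y` by definition. -/
theorem Pd.psi (μ : ℂ) (k : ℕ) (i : Fin 4) : Pd k (fun z => psi (ta i) μ k (Lf i z) (Ls i z)) := by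
  unfold Pool.Agent.Helper49.TA.psi
  have h1 : (fun z => μ⁻¹ ^ k * ∑ j ∈ Finset.range (k + 1), (k.choose j : ℂ) *
      iteratedDeriv (k - j) (Sf (ta i)) (Lf i z) * (-(hc (ta i)) * Ls i z) ^ j) =
      fun z => ∑ j ∈ Finset.range (k + 1), (μ⁻¹ ^ k * ((k.choose j : ℂ) *
        iteratedDeriv (k - j) (Sf (ta i)) (Lf i z))) * (-(hc (ta i)) * Ls i z) ^ j := by
    funext z
    rw [Finset.mul_sum]
    refine Finset.sum_congr rfl fun j _ => ?_
    ring
  rw [h1]
  refine Pd.sum _ _ fun j hj => ?_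
  rw [Finset.mem_range] at hj
  have h2 : Pd 0 (fun z => μ⁻¹ ^ k * ((k.choose j : ℂ) *
      iteratedDeriv (k - j) (Sf (ta i)) (Lf i z))) := by
    refine Pd.const ?_ fun z w => ?_
    · refine Differentiable.const_mul (Differentiable.const_mul ?_ _) _
      exact (iter_diff (Sf_differentiable (ta_im i)) (k - j)).comp (Lf_diff i)
    · rw [Lf_upd]
  exact (h2.mul ((Pd_Ls i _).pow j)).mono (by omega)

theorem F_poly (μ₁ μ₂ : ℂ) (L : ℕ) (p : (Fin 4 → Fin (L + 1)) → ℂ) :
    ∃ G : ℕ → (Fin 4 → ℂ) → ℂ, (∀ j, Differentiable ℂ (G j)) ∧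
    (∀ j z w, G j (Function.update z 2 w) = G j z) ∧
    ∀ z, Ff μ₁ μ₂ L p z = ∑ j ∈ Finset.range (4 * L + 1), G j z * z 2 ^ j := by
  have h1 : Pd (4 * L) (Ff μ₁ μ₂ L p) := by
    unfold Ff
    refine Pd.sum _ _ fun k _ => ?_
    have h2 : ∀ i : Fin 4, Pd L (fun z => psi (ta i) (mf μ₁ μ₂ i) (k i) (Lf i z) (Ls i z)) :=
      fun i => (Pd.psi _ _ i).mono (by have := (k i).2; omega)
    have h3 := (((Pd.const (g := fun _ => p k) (differentiable_const _) fun _ _ => rfl).mul
      (h2 0)).mul (h2 1)).mul (h2 2) |>.mul (h2 3)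
    have h4 := h3.mono (show 0 + L + L + L + L ≤ 4 * L by omega)
    simpa [Fin.prod_univ_four, mul_assoc] using h4
  exact h1

end

end Pool.Agent.Helper53.TA
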