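import Mathlib

/-!
PROJECT TA (MP_274814_nt), block F4, file Fc: functions `∑ g_j(a) b^e1 c^e2 d^e3` with entire `g_j`.
-/

namespace Pool.Agent.Helper53.TA

open Filter Topology

noncomputable section

/-- Circle lemma. -/
theorem circ {J : Type} [Fintype J] (f : J → ℂ → ℂ) (hf : ∀ j, Differentiable ℂ (f j))
    (n : J → ℕ) (h : ∀ x : ℂ, ∑ j, f j x * (starRingEnd ℂ) x ^ n j = 0) (x y : ℂ) :
    ∑ j, f j x * y ^ n j = 0 := by
  classical
  set N := ∑ j, n j with hN
  have hn : ∀ j, n j ≤ N := fun j => Finset.single_le_sum (fun i _ => Nat.zero_le _)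
    (Finset.mem_univ j)
  -- step 1
  have h1 : ∀ R : ℝ, 0 < R → ∀ z : ℂ,
      ∑ j, f j z * ((R : ℂ) ^ 2) ^ n j * z ^ (N - n j) = 0 := by
    intro R hR z
    have hE : Differentiable ℂ (fun z : ℂ =>
        ∑ j, f j z * ((R : ℂ) ^ 2) ^ n j * z ^ (N - n j)) := by
      refine Differentiable.fun_sum fun j _ => ?_
      exact ((hf j).mul_const _).mul (differentiable_id.pow _)
    have hc : ∀ z : ℂ, ‖z‖ = R →
        ∑ j, f j z * ((R : ℂ) ^ 2) ^ n j * z ^ (N - n j) = 0 := by
      intro z hz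
      have hzz : z * (starRingEnd ℂ) z = (R : ℂ) ^ 2 := by
        rw [Complex.mul_conj, Complex.normSq_eq_norm_sq, hz]
        push_cast
        ring
      have e : ∀ j, f j z * ((R : ℂ) ^ 2) ^ n j * z ^ (N - n j) =
          z ^ N * (f j z * (starRingEnd ℂ) z ^ n j) := by
        intro j
        rw [← hzz, mul_pow]
        have : z ^ N = z ^ n j * z ^ (N - n j) := by
          rw [← pow_add, Nat.add_sub_cancel' (hn j)]
        rw [this]
        ring
      simp only [e, ← Finset.mul_sum, h z, mul_zero]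
    -- identity theorem
    have han : AnalyticOnNhd ℂ (fun z : ℂ =>
        ∑ j, f j z * ((R : ℂ) ^ 2) ^ n j * z ^ (N - n j)) Set.univ :=
      fun z _ => hE.analyticAt z
    have hfr : ∃ᶠ z in 𝓝[≠] (R : ℂ),
        (∑ j, f j z * ((R : ℂ) ^ 2) ^ n j * z ^ (N - n j)) = 0 := by
      have ht : Tendsto (fun t : ℝ => (R : ℂ) * Complex.exp (t * Complex.I)) (𝓝[≠] 0)
          (𝓝[≠] (R : ℂ)) := by
        rw [tendsto_nhdsWithin_iff]
        constructor
        · have hcont : Continuous (fun t : ℝ => (R : ℂ) * Complex.exp (t * Complex.I)) := by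
            fun_prop
          have := hcont.tendsto 0
          simp only [Complex.ofReal_zero, zero_mul, Complex.exp_zero, mul_one] at this
          exact this.mono_left nhdsWithin_le_nhds
        · have hsm : ∀ᶠ t : ℝ in 𝓝[≠] 0, |t| < 1 ∧ t ≠ 0 := by
            refine Filter.Eventually.and ?_ self_mem_nhdsWithin
            exact mem_nhdsWithin_of_mem_nhds (by
              have : {t : ℝ | |t| < 1} ∈ 𝓝 (0 : ℝ) := by
                refine IsOpen.mem_nhds (isOpen_lt continuous_abs continuous_const) ?_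
                simp
              exact this)
          filter_upwards [hsm] with t ht
          intro hEq
          have hR0 : (R : ℂ) ≠ 0 := by exact_mod_cast hR.ne'
          have h2 : Complex.exp (t * Complex.I) = 1 := by
            have : (R : ℂ) * Complex.exp (t * Complex.I) = (R : ℂ) * 1 := by simpa using hEq
            exact mul_left_cancel₀ hR0 this
          rw [Complex.exp_eq_one_iff] at h2
          obtain ⟨k, hk⟩ := h2
          have h3 : (t : ℂ) = k * (2 * Real.pi) := by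
            have hI := Complex.I_ne_zero
            have : (t : ℂ) * Complex.I = (k * (2 * Real.pi)) * Complex.I := by
              rw [hk]; ring
            exact mul_right_cancel₀ hI this
          have h4 : t = k * (2 * Real.pi) := by exact_mod_cast h3
          rcases eq_or_ne k 0 with hk0 | hk0
          · rw [hk0] at h4
            simp at h4
            exact ht.2 h4
          · have h5 : (1 : ℝ) ≤ |(k : ℝ)| := by exact_mod_cast Int.one_le_abs hk0
            have h6 : |t| = |(k : ℝ)| * (2 * Real.pi) := by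
              rw [h4, abs_mul, abs_of_pos Real.two_pi_pos]
            have := Real.pi_gt_three
            nlinarith [ht.1]
      refine ht.frequently (Filter.Eventually.frequently (Filter.Eventually.of_forall fun t => ?_))
      apply hc
      rw [norm_mul, Complex.norm_exp_ofReal_mul_I, mul_one, Complex.norm_real,
        Real.norm_of_nonneg hR.le]
    have := han.eqOn_zero_of_preconnected_of_frequently_eq_zero isPreconnected_univ
      (Set.mem_univ _) hfr (Set.mem_univ z)
    exact this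
  -- step 2
  have h2 : ∀ z : ℂ, z ≠ 0 → ∀ y : ℂ, ∑ j, f j z * y ^ n j = 0 := by
    intro z hz y
    let p : Polynomial ℂ := ∑ j, Polynomial.C (f j z) * Polynomial.X ^ n j
    have hp : ∀ y, p.eval y = ∑ j, f j z * y ^ n j := by
      intro y
      simp [p, Polynomial.eval_finsetSum]
    have hp0 : p = 0 := by
      apply Polynomial.eq_zero_of_infinite_isRoot
      refine Set.infinite_of_injective_forall_mem (f := fun k : ℕ => (((k : ℝ) + 1 : ℝ) : ℂ) ^ 2 / z)
        ?_ ?_
      · intro k l hkl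
        have hkl' : (((k : ℝ) + 1 : ℝ) : ℂ) ^ 2 / z = (((l : ℝ) + 1 : ℝ) : ℂ) ^ 2 / z := hkl
        rw [div_left_inj' hz] at hkl'
        have h3 : ((k : ℝ) + 1) ^ 2 = ((l : ℝ) + 1) ^ 2 := by exact_mod_cast hkl'
        have h4 : (k : ℝ) + 1 = (l : ℝ) + 1 :=
          (pow_left_inj₀ (by positivity) (by positivity) two_ne_zero).1 h3
        exact_mod_cast (add_right_cancel h4)
      · intro k
        have hk : (0 : ℝ) < (k : ℝ) + 1 := by positivity
        have h5 := h1 ((k : ℝ) + 1) hk z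
        change p.IsRoot _
        rw [Polynomial.IsRoot.def, hp]
        have e : ∀ j, f j z * ((((k : ℝ) + 1 : ℝ) : ℂ) ^ 2) ^ n j * z ^ (N - n j) =
            z ^ N * (f j z * ((((k : ℝ) + 1 : ℝ) : ℂ) ^ 2 / z) ^ n j) := by
          intro j
          rw [div_pow]
          have : z ^ N = z ^ n j * z ^ (N - n j) := by
            rw [← pow_add, Nat.add_sub_cancel' (hn j)]
          rw [this]
          field_simp
        simp only [e, ← Finset.mul_sum] at h5
        exact (mul_eq_zero.1 h5).resolve_left (pow_ne_zero _ hz)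
    rw [← hp, hp0]
    simp
  -- step 3
  by_cases hx : x = 0
  · have hcont : Continuous (fun z : ℂ => ∑ j, f j z * y ^ n j) := by
      refine continuous_finsetSum _ fun j _ => ?_
      exact (hf j).continuous.mul continuous_const
    have hd : Dense ({(0 : ℂ)}ᶜ) := dense_compl_singleton 0
    have := hcont.ext_on hd continuous_const (g := fun _ => (0 : ℂ)) (fun z hz => h2 z hz y)
    exact congrFun this x
  · exact h2 x hx y

/-- class of the functions `∑ g_j(a) b^e1 c^e2 d^e3` -/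
def Pf (G : ℂ → ℂ → ℂ → ℂ → ℂ) : Prop :=
  ∃ (J : Type) (_ : Fintype J) (g : J → ℂ → ℂ) (e : J → ℕ × ℕ × ℕ),
    (∀ j, Differentiable ℂ (g j)) ∧
    ∀ a b c d, G a b c d = ∑ j, g j a * (b ^ (e j).1 * c ^ (e j).2.1 * d ^ (e j).2.2)

theorem Pf.add {G H : ℂ → ℂ → ℂ → ℂ → ℂ} (hG : Pf G) (hH : Pf H) :
    Pf (fun a b c d => G a b c d + H a b c d) := by
  obtain ⟨J, _, g, e, hg, h1⟩ := hG
  obtain ⟨J', _, g', e', hg', h1'⟩ := hH
  refine ⟨J ⊕ J', inferInstance, Sum.elim g g', Sum.elim e e', ?_, ?_⟩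
  · rintro (j | j)
    · exact hg j
    · exact hg' j
  · intro a b c d
    change G a b c d + H a b c d = _
    rw [Fintype.sum_sum_type, h1, h1']
    simp

theorem Pf.mul {G H : ℂ → ℂ → ℂ → ℂ → ℂ} (hG : Pf G) (hH : Pf H) :
    Pf (fun a b c d => G a b c d * H a b c d) := by
  obtain ⟨J, _, g, e, hg, h1⟩ := hG
  obtain ⟨J', _, g', e', hg', h1'⟩ := hH
  refine ⟨J × J', inferInstance, fun j a => g j.1 a * g' j.2 a, fun j => e j.1 + e' j.2, ?_, ?_⟩
  · intro j
    exact (hg j.1).mul (hg' j.2)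
  · intro a b c d
    change G a b c d * H a b c d = _
    rw [h1, h1', Finset.sum_mul_sum, Fintype.sum_prod_type]
    refine Finset.sum_congr rfl fun i _ => Finset.sum_congr rfl fun j _ => ?_
    simp only [Prod.fst_add, Prod.snd_add, pow_add]
    ring

theorem Pf.fa {g : ℂ → ℂ} (hg : Differentiable ℂ g) : Pf (fun a _ _ _ => g a) :=
  ⟨Unit, inferInstance, fun _ => g, fun _ => (0, 0, 0), fun _ => hg, fun a b c d => by simp⟩

theorem Pf.const (x : ℂ) : Pf (fun _ _ _ _ => x) := Pf.fa (differentiable_const x)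

theorem Pf.vb : Pf (fun _ b _ _ => b) :=
  ⟨Unit, inferInstance, fun _ _ => 1, fun _ => (1, 0, 0), fun _ => differentiable_const 1,
    fun a b c d => by simp⟩

theorem Pf.vc : Pf (fun _ _ c _ => c) :=
  ⟨Unit, inferInstance, fun _ _ => 1, fun _ => (0, 1, 0), fun _ => differentiable_const 1,
    fun a b c d => by simp⟩

theorem Pf.vd : Pf (fun _ _ _ d => d) :=
  ⟨Unit, inferInstance, fun _ _ => 1, fun _ => (0, 0, 1), fun _ => differentiable_const 1,
    fun a b c d => by simp⟩

theorem Pf.sum {I : Type} (s : Finset I) {G : I → ℂ → ℂ → ℂ → ℂ → ℂ} (hG : ∀ i, Pf (G i)) :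
    Pf (fun a b c d => ∑ i ∈ s, G i a b c d) := by
  classical
  induction s using Finset.induction_on with
  | empty => simpa using Pf.const 0
  | insert i s hi ih =>
    simp only [Finset.sum_insert hi]
    exact (hG i).add ih

theorem Pf.prod {I : Type} (s : Finset I) {G : I → ℂ → ℂ → ℂ → ℂ → ℂ} (hG : ∀ i, Pf (G i)) :
    Pf (fun a b c d => ∏ i ∈ s, G i a b c d) := by
  classical
  induction s using Finset.induction_on with
  | empty => simpa using Pf.const 1
  | insert i s hi ih =>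
    simp only [Finset.prod_insert hi]
    exact (hG i).mul ih

theorem Pf.pow {G : ℂ → ℂ → ℂ → ℂ → ℂ} (hG : Pf G) (n : ℕ) :
    Pf (fun a b c d => G a b c d ^ n) := by
  induction n with
  | zero => simpa using Pf.const 1
  | succ n ih =>
    simp only [pow_succ]
    exact ih.mul hG

/-- Vanishing on the conjugate points implies vanishing. -/
theorem conj_zero {J : Type} [Fintype J] (g : J → ℂ → ℂ) (e : J → ℕ × ℕ × ℕ)
    (hg : ∀ j, Differentiable ℂ (g j))
    (h : ∀ α β : ℂ, ∑ j, g j α * (β ^ (e j).1 * (starRingEnd ℂ) β ^ (e j).2.1 *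
      (starRingEnd ℂ) α ^ (e j).2.2) = 0) (a b c d : ℂ) :
    ∑ j, g j a * (b ^ (e j).1 * c ^ (e j).2.1 * d ^ (e j).2.2) = 0 := by
  have h1 : ∀ β x y : ℂ, ∑ j, (g j x * (β ^ (e j).1 * (starRingEnd ℂ) β ^ (e j).2.1)) *
      y ^ (e j).2.2 = 0 := by
    intro β x y
    refine circ (fun j x => g j x * (β ^ (e j).1 * (starRingEnd ℂ) β ^ (e j).2.1))
      (fun j => (hg j).mul_const _) (fun j => (e j).2.2) (fun x => ?_) x y
    rw [← h x β]
    refine Finset.sum_congr rfl fun j _ => ?_
    ring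
  have h2 := circ (fun j β => g j a * d ^ (e j).2.2 * β ^ (e j).1)
      (fun j => (differentiable_id.pow _).const_mul _) (fun j => (e j).2.1) (fun x => by
        rw [← h1 x a d]
        refine Finset.sum_congr rfl fun j _ => ?_
        ring) b c
  rw [← h2]
  refine Finset.sum_congr rfl fun j _ => ?_
  ring

/-- `seqs`: at every `(α, β)` there are points of the set `D` with `s0 → α`, `s1 / Q^2 → β`, `Q → ∞`. -/
theorem vanish {K : Type} (s0 s1 : K → ℂ)
    (hD : ∀ α β : ℂ, ∃ (κ : ℕ → K) (Q : ℕ → ℝ), Tendsto Q atTop atTop ∧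
      Tendsto (fun n => s0 (κ n)) atTop (𝓝 α) ∧
      Tendsto (fun n => s1 (κ n) / (Q n : ℂ)) atTop (𝓝 β))
    {G : ℂ → ℂ → ℂ → ℂ → ℂ} (hG : Pf G)
    (h : ∀ κ, G (s0 κ) (s1 κ) ((starRingEnd ℂ) (s1 κ)) ((starRingEnd ℂ) (s0 κ)) = 0)
    (a b c d : ℂ) : G a b c d = 0 := by
  obtain ⟨J, _, g, e, hg, h1⟩ := hG
  rw [h1]
  have h' : ∀ κ, ∑ j, g j (s0 κ) * (s1 κ ^ (e j).1 * (starRingEnd ℂ) (s1 κ) ^ (e j).2.1 *
      (starRingEnd ℂ) (s0 κ) ^ (e j).2.2) = 0 := fun κ => by rw [← h1, h]
  clear h h1 G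
  -- induction on a strict bound of the degrees
  suffices key : ∀ n : ℕ, ∀ (J : Type) (_ : Fintype J) (g : J → ℂ → ℂ) (e : J → ℕ × ℕ × ℕ),
      (∀ j, Differentiable ℂ (g j)) → (∀ j, (e j).1 + (e j).2.1 < n) →
      (∀ κ, ∑ j, g j (s0 κ) * (s1 κ ^ (e j).1 * (starRingEnd ℂ) (s1 κ) ^ (e j).2.1 *
        (starRingEnd ℂ) (s0 κ) ^ (e j).2.2) = 0) → ∀ a b c d : ℂ,
      ∑ j, g j a * (b ^ (e j).1 * c ^ (e j).2.1 * d ^ (e j).2.2) = 0 by
    refine key (∑ j, ((e j).1 + (e j).2.1) + 1) J inferInstance g e hg (fun j => ?_) h' a b c d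
    exact Nat.lt_succ_of_le (Finset.single_le_sum
      (f := fun j => (e j).1 + (e j).2.1) (fun i _ => Nat.zero_le _) (Finset.mem_univ j))
  intro n
  induction n with
  | zero =>
    intro J _ g e hg hlt _ a b c d
    have : IsEmpty J := ⟨fun j => absurd (hlt j) (Nat.not_lt_zero _)⟩
    simp
  | succ n ih =>
    intro J _ g e hg hlt hz a b c d
    classical
    -- the part of degree `n`
    let J1 := {j : J // (e j).1 + (e j).2.1 = n}
    let J2 := {j : J // ¬ ((e j).1 + (e j).2.1 = n)}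
    have split : ∀ F : J → ℂ, ∑ j, F j = ∑ j : J1, F j + ∑ j : J2, F j := fun F =>
      (Fintype.sum_subtype_add_sum_subtype (fun j => (e j).1 + (e j).2.1 = n) F).symm
    have top : ∀ α β : ℂ, ∑ j : J1, g j α * (β ^ (e j).1 * (starRingEnd ℂ) β ^ (e j).2.1 *
        (starRingEnd ℂ) α ^ (e j).2.2) = 0 := by
      intro α β
      obtain ⟨κ, Q, hQ, h0, h1⟩ := hD α β
      have hQC : Tendsto (fun m => ((Q m : ℂ))⁻¹) atTop (𝓝 0) := by
        rw [tendsto_zero_iff_norm_tendsto_zero]
        have e1 : (fun m => ‖((Q m : ℂ))⁻¹‖) = fun m => |Q m|⁻¹ := by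
          funext m
          rw [norm_inv, Complex.norm_real, Real.norm_eq_abs]
        rw [e1]
        exact (tendsto_abs_atTop_atTop.comp hQ).inv_tendsto_atTop
      have hcj : Tendsto (fun m => (starRingEnd ℂ) (s1 (κ m)) / (Q m : ℂ)) atTop
          (𝓝 ((starRingEnd ℂ) β)) := by
        have := (Complex.continuous_conj.tendsto β).comp h1
        refine this.congr fun m => ?_
        simp
      have hc0 : Tendsto (fun m => (starRingEnd ℂ) (s0 (κ m))) atTop
          (𝓝 ((starRingEnd ℂ) α)) := (Complex.continuous_conj.tendsto α).comp h0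
      -- the scaled sum
      have lim : Tendsto (fun m => ∑ j : J1, g j (s0 (κ m)) *
          ((s1 (κ m) / Q m) ^ (e j).1 * ((starRingEnd ℂ) (s1 (κ m)) / Q m) ^ (e j).2.1 *
            (starRingEnd ℂ) (s0 (κ m)) ^ (e j).2.2) +
          ∑ j : J2, g j (s0 (κ m)) *
          ((s1 (κ m) / Q m) ^ (e j).1 * ((starRingEnd ℂ) (s1 (κ m)) / Q m) ^ (e j).2.1 *
            (starRingEnd ℂ) (s0 (κ m)) ^ (e j).2.2) *
            ((Q m : ℂ)⁻¹) ^ (n - ((e j).1 + (e j).2.1))) atTop
          (𝓝 (∑ j : J1, g j α * (β ^ (e j).1 * (starRingEnd ℂ) β ^ (e j).2.1 *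
            (starRingEnd ℂ) α ^ (e j).2.2) +
          ∑ j : J2, g j α * (β ^ (e j).1 * (starRingEnd ℂ) β ^ (e j).2.1 *
            (starRingEnd ℂ) α ^ (e j).2.2) * 0 ^ (n - ((e j).1 + (e j).2.1)))) := by
        refine Tendsto.add ?_ ?_
        · refine tendsto_finsetSum _ fun j _ => ?_
          exact (((hg j).continuous.tendsto α).comp h0).mul
            (((h1.pow _).mul (hcj.pow _)).mul (hc0.pow _))
        · refine tendsto_finsetSum _ fun j _ => ?_
          exact ((((hg j).continuous.tendsto α).comp h0).mul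
            (((h1.pow _).mul (hcj.pow _)).mul (hc0.pow _))).mul (hQC.pow _)
      have z2 : ∑ j : J2, g j α * (β ^ (e j).1 * (starRingEnd ℂ) β ^ (e j).2.1 *
            (starRingEnd ℂ) α ^ (e j).2.2) * 0 ^ (n - ((e j).1 + (e j).2.1)) = (0 : ℂ) := by
        refine Finset.sum_eq_zero fun j _ => ?_
        have h3 := hlt j.1
        have h4 := j.2
        rw [zero_pow (by omega), mul_zero]
      rw [z2, add_zero] at lim
      refine tendsto_nhds_unique lim ?_
      refine tendsto_const_nhds.congr' ?_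
      filter_upwards [hQ.eventually_gt_atTop 0] with m hm
      have hQm : (Q m : ℂ) ≠ 0 := by exact_mod_cast hm.ne'
      have h5 := hz (κ m)
      rw [split] at h5
      have h6 : ∀ j : J1, g j (s0 (κ m)) *
          ((s1 (κ m) / Q m) ^ (e j).1 * ((starRingEnd ℂ) (s1 (κ m)) / Q m) ^ (e j).2.1 *
            (starRingEnd ℂ) (s0 (κ m)) ^ (e j).2.2) = ((Q m : ℂ)⁻¹) ^ n *
          (g j (s0 (κ m)) * (s1 (κ m) ^ (e j).1 * (starRingEnd ℂ) (s1 (κ m)) ^ (e j).2.1 *
            (starRingEnd ℂ) (s0 (κ m)) ^ (e j).2.2)) := by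
        intro j
        have h7 := j.2
        have h8 : ((Q m : ℂ)⁻¹) ^ n = ((Q m : ℂ)⁻¹) ^ (e j).1 * ((Q m : ℂ)⁻¹) ^ (e j).2.1 := by
          rw [← pow_add, h7]
        rw [h8, div_eq_mul_inv, div_eq_mul_inv, mul_pow, mul_pow]
        ring
      have h6' : ∀ j : J2, g j (s0 (κ m)) *
          ((s1 (κ m) / Q m) ^ (e j).1 * ((starRingEnd ℂ) (s1 (κ m)) / Q m) ^ (e j).2.1 *
            (starRingEnd ℂ) (s0 (κ m)) ^ (e j).2.2) *
            ((Q m : ℂ)⁻¹) ^ (n - ((e j).1 + (e j).2.1)) = ((Q m : ℂ)⁻¹) ^ n *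
          (g j (s0 (κ m)) * (s1 (κ m) ^ (e j).1 * (starRingEnd ℂ) (s1 (κ m)) ^ (e j).2.1 *
            (starRingEnd ℂ) (s0 (κ m)) ^ (e j).2.2)) := by
        intro j
        have h7 := hlt j.1
        have h8 : ((Q m : ℂ)⁻¹) ^ n = ((Q m : ℂ)⁻¹) ^ (e j).1 * ((Q m : ℂ)⁻¹) ^ (e j).2.1 *
            ((Q m : ℂ)⁻¹) ^ (n - ((e j).1 + (e j).2.1)) := by
          rw [← pow_add, ← pow_add, Nat.add_sub_cancel' (by omega)]
        rw [h8, div_eq_mul_inv, div_eq_mul_inv, mul_pow, mul_pow]
        ring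
      rw [Finset.sum_congr rfl fun j _ => h6 j, Finset.sum_congr rfl fun j _ => h6' j,
        ← Finset.mul_sum, ← Finset.mul_sum, ← mul_add, h5, mul_zero]
    have top' := conj_zero (fun j : J1 => g j) (fun j : J1 => e j) (fun j => hg j) top
    rw [split, top', zero_add]
    refine ih J2 inferInstance (fun j => g j) (fun j => e j) (fun j => hg j) (fun j => ?_) ?_
      a b c d
    · have h3 := hlt j.1
      have h4 := j.2
      omega
    · intro κ
      have h5 := hz κ
      rw [split, top', zero_add] at h5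
      exact h5

end

end Pool.Agent.Helper53.TA
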